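import Pool.Agent.H500R2.PR.Basic
import Pool.Agent.H500R2.PR.H2
set_option autoImplicit false
open scoped InnerProductSpace
namespace Pool.Agent.H500R2.PR.TH3

theorem h3_inner_adj {K : Type} [NormedAddCommGroup K] [InnerProductSpace ℂ K] [CompleteSpace K]
    (T : K →L[ℂ] K) (hT : IsSelfAdjoint T) (u v : K) : ⟪u, T v⟫_ℂ = ⟪T u, v⟫_ℂ := by
  rw [← ContinuousLinearMap.adjoint_inner_left, ← ContinuousLinearMap.star_eq_adjoint, hT.star_eq]

/-- H3 -/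
theorem naimark_two (X Y A B : Type) [Fintype A] [Nonempty A] [Fintype B] [Nonempty B]
    (H : Type) [NormedAddCommGroup H] [InnerProductSpace ℂ H] [CompleteSpace H]
    (M : X → A → (H →L[ℂ] H)) (N : Y → B → (H →L[ℂ] H)) (hM : Povm M) (hN : Povm N)
    (hc : ∀ x a y b, Commute (M x a) (N y b)) :
    ∃ (K : Type) (_ : NormedAddCommGroup K) (_ : InnerProductSpace ℂ K) (_ : CompleteSpace K)
      (J : H →ₗᵢ[ℂ] K) (P : X → A → (K →L[ℂ] K)) (Q : Y → B → (K →L[ℂ] K)),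
      Pvm P ∧ Pvm Q ∧ (∀ x a y b, Commute (P x a) (Q y b)) ∧
      (∀ x a y b v w, ⟪J v, (P x a * Q y b) (J w)⟫_ℂ = ⟪v, (M x a * N y b) w⟫_ℂ) := by
  obtain ⟨K1, i1, i2, i3, J1, θ1, P1, hJ1, hP1, hI1, hC1⟩ := naimark_one X A H M hM
  have hN' : Povm (fun y b => θ1 (N y b)) := by
    refine ⟨fun y b => map_nonneg θ1 (hN.1 y b), fun y => ?_⟩
    rw [← map_sum, hN.2 y, map_one]
  obtain ⟨K2, j1, j2, j3, J2, θ2, Q, hJ2, hQ, hI2, hC2⟩ :=
    naimark_one Y B K1 (fun y b => θ1 (N y b)) hN'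
  refine ⟨K2, j1, j2, j3, J2.comp J1, fun x a => θ2 (P1 x a), Q, ⟨?_, ?_⟩, hQ, ?_, ?_⟩
  · intro x a
    refine ⟨(hP1.1 x a).1.map θ2, (hP1.1 x a).2.map θ2⟩
  · intro x
    rw [← map_sum, hP1.2 x, map_one]
  · intro x a y b
    refine hC2 (P1 x a) (fun y' b' => ?_) y b
    exact (hC1 (N y' b') (fun x' a' => (hc x' a' y' b').symm) x a).symm
  · intro x a y b v w
    have hsa : IsSelfAdjoint (θ2 (P1 x a)) := (hP1.1 x a).2.map θ2
    rw [ContinuousLinearMap.mul_apply, h3_inner_adj _ hsa]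
    show ⟪θ2 (P1 x a) (J2 (J1 v)), Q y b (J2 (J1 w))⟫_ℂ = _
    rw [hJ2, hI2, hJ1, ← h3_inner_adj _ (hP1.1 x a).2, hI1, ContinuousLinearMap.mul_apply]

end Pool.Agent.H500R2.PR.TH3

namespace Pool.Agent.H500R2.PR

export TH3 (naimark_two)

end Pool.Agent.H500R2.PR
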