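import Pool.Agent.H500R2.PR.Basic
import Pool.Agent.H500R2.PR.H1
import Pool.Agent.H500R2.PRF.H3
set_option autoImplicit false
open scoped InnerProductSpace
namespace Pool.Agent.H500R2.PR.TH4

section
variable {H : Type} [NormedAddCommGroup H] [InnerProductSpace ℂ H]

theorem H4_ev_sub_le (Z : H →L[ℂ] H) (ζ ψ : H) :
    |ev ζ Z - ev ψ Z| ≤ ‖Z‖ * ‖ζ - ψ‖ * (‖ζ‖ + ‖ψ‖) := by
  have h1 : ev ζ Z - ev ψ Z = (⟪ζ - ψ, Z ζ⟫_ℂ + ⟪ψ, Z (ζ - ψ)⟫_ℂ).re := by
    simp only [ev, inner_sub_left, map_sub, inner_sub_right, Complex.add_re, Complex.sub_re]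
    ring
  rw [h1]
  refine (Complex.abs_re_le_norm _).trans ((norm_add_le _ _).trans ?_)
  have h2 : ‖⟪ζ - ψ, Z ζ⟫_ℂ‖ ≤ ‖ζ - ψ‖ * (‖Z‖ * ‖ζ‖) :=
    (norm_inner_le_norm _ _).trans
      (mul_le_mul_of_nonneg_left (Z.le_opNorm _) (norm_nonneg _))
  have h3 : ‖⟪ψ, Z (ζ - ψ)⟫_ℂ‖ ≤ ‖ψ‖ * (‖Z‖ * ‖ζ - ψ‖) :=
    (norm_inner_le_norm _ _).trans
      (mul_le_mul_of_nonneg_left (Z.le_opNorm _) (norm_nonneg _))
  calc _ ≤ ‖ζ - ψ‖ * (‖Z‖ * ‖ζ‖) + ‖ψ‖ * (‖Z‖ * ‖ζ - ψ‖) := add_le_add h2 h3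
    _ = _ := by ring

theorem H4_ev_smul_vec (r : ℝ) (Z : H →L[ℂ] H) (ψ : H) :
    ev ((r : ℂ) • ψ) Z = r ^ 2 * ev ψ Z := by
  simp only [ev, map_smul, inner_smul_left, inner_smul_right, Complex.conj_ofReal,
    Complex.re_ofReal_mul]
  ring

end

/-- scaled hypothesis for commuting POVMs -/
theorem H4_povm {X Y A B : Type} [Fintype X] [Fintype Y] [Fintype A] [Fintype B]
    [Nonempty A] [Nonempty B]
    (w : X → Y → ℝ) (V : X → Y → A → B → Bool) (lam : ℝ)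
    (hyp : ∀ (H : Type) [NormedAddCommGroup H] [InnerProductSpace ℂ H] [CompleteSpace H]
      (P : X → A → (H →L[ℂ] H)) (Q : Y → B → (H →L[ℂ] H)) (ψ : H), Pvm P → Pvm Q →
      (∀ x a y b, Commute (P x a) (Q y b)) → ‖ψ‖ = 1 → lam ≤ lose w V P Q ψ)
    (H : Type) [NormedAddCommGroup H] [InnerProductSpace ℂ H] [CompleteSpace H]
    (M : X → A → (H →L[ℂ] H)) (N : Y → B → (H →L[ℂ] H)) (hM : Povm M) (hN : Povm N)
    (hc : ∀ x a y b, Commute (M x a) (N y b)) (η : H) :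
    lam * ‖η‖ ^ 2 ≤ lose w V M N η := by
  by_cases hη : η = 0
  · subst hη
    simp [lose, ev]
  obtain ⟨K, _, _, _, J, P, Q, hP, hQ, hPQ, hJ⟩ := naimark_two X Y A B H M N hM hN hc
  have hn : 0 < ‖η‖ := norm_pos_iff.2 hη
  have h1 := hyp K P Q (((‖η‖⁻¹ : ℝ) : ℂ) • J η) hP hQ hPQ (by
    rw [norm_smul, J.norm_map]
    simp
    field_simp)
  have h2 : lose w V P Q (((‖η‖⁻¹ : ℝ) : ℂ) • J η) = (‖η‖⁻¹) ^ 2 * lose w V M N η := by
    unfold lose
    rw [Finset.mul_sum]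
    refine Finset.sum_congr rfl fun x _ => ?_
    rw [Finset.mul_sum]
    refine Finset.sum_congr rfl fun y _ => ?_
    rw [mul_left_comm]
    congr 1
    rw [Finset.mul_sum]
    refine Finset.sum_congr rfl fun a _ => ?_
    rw [Finset.mul_sum]
    refine Finset.sum_congr rfl fun b _ => ?_
    split_ifs
    · simp
    · rw [H4_ev_smul_vec]
      congr 1
      simp only [ev]
      rw [hJ]
  rw [h2] at h1
  have h3 : lam * ‖η‖ ^ 2 ≤ ((‖η‖⁻¹) ^ 2 * lose w V M N η) * ‖η‖ ^ 2 :=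
    mul_le_mul_of_nonneg_right h1 (by positivity)
  refine h3.trans (le_of_eq ?_)
  field_simp

theorem H4_norm_le {H : Type} [NormedAddCommGroup H] [InnerProductSpace ℂ H] [CompleteSpace H]
    {A : Type} [Fintype A] (P : A → (H →L[ℂ] H)) (hP : ∀ a, 0 ≤ P a)
    (h2 : ∑ a, P a ≤ ((2 : ℝ) : ℂ) • (1 : H →L[ℂ] H)) (a : A) : ‖P a‖ ≤ 2 := by
  have h3 : P a ≤ ∑ a, P a := Finset.single_le_sum (fun i _ => hP i) (Finset.mem_univ a)
  have h4 : P a ≤ algebraMap ℝ (H →L[ℂ] H) 2 := by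
    rw [Algebra.algebraMap_eq_smul_one]
    exact h3.trans h2
  exact (CStarAlgebra.norm_le_iff_le_algebraMap (P a) (by norm_num) (hP a)).2 h4

theorem H4_nonempty {H : Type} [NormedAddCommGroup H] [InnerProductSpace ℂ H] [CompleteSpace H]
    {A : Type} [Fintype A] (P : A → (H →L[ℂ] H)) (δ : ℝ) (hδ : 0 < δ) (ψ : H) (hψ : ‖ψ‖ = 1)
    (h : ((δ : ℝ) : ℂ) • (1 : H →L[ℂ] H) ≤ ∑ a, P a) : Nonempty A := by
  by_contra hne
  rw [not_nonempty_iff] at hne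
  have h1 := ev_mono ψ _ _ h
  rw [ev_smul, ev_one, hψ] at h1
  simp [ev_zero] at h1
  linarith

/-- one term -/
theorem H4_term {H : Type} [NormedAddCommGroup H] [InnerProductSpace ℂ H] [CompleteSpace H]
    (P Q R R' S T : H →L[ℂ] H) (ψ : H) (hψ : ‖ψ‖ = 1)
    (hST : Commute (star S) (star T)) (hST' : Commute S (star T)) (hSQ : Commute S Q)
    (hTP : Commute (star T) P) (hTR : Commute T R)
    (hP : ‖P‖ ≤ 2) (hQ : ‖Q‖ ≤ 2) (K0 dE dF : ℝ) (hK0 : 0 ≤ K0) (hdF : 0 ≤ dF) (hdE : 0 ≤ dE)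
    (h1 : ‖S (R ψ) - ψ‖ ≤ K0 * dE) (h2 : ∀ φ, ‖S (R φ)‖ ≤ K0 * ‖φ‖)
    (h3 : ‖T (R' ψ) - ψ‖ ≤ K0 * dF) (h4 : ‖T (R' ψ)‖ ≤ K0 * ‖ψ‖) :
    ev (R (R' ψ)) ((star S * P * S) * (star T * Q * T)) ≤
      ev ψ (P * Q) + 4 * (K0 ^ 2 + 1) * (K0 + K0 ^ 2) * (dE + dF) := by
  set ζ : H := S (R (T (R' ψ))) with hζ
  have hTR2 : ∀ v, T (R v) = R (T v) := fun v => by
    have := congrArg (fun Z : H →L[ℂ] H => Z v) hTR.eq
    simpa using this
  have e1 : ev (R (R' ψ)) ((star S * P * S) * (star T * Q * T)) = ev ζ (P * Q) := by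
    have : (star S * P * S) * (star T * Q * T) = star (S * T) * (P * Q) * (S * T) := by
      rw [star_mul]
      calc (star S * P * S) * (star T * Q * T) = star S * P * (S * star T) * Q * T := by
            simp only [mul_assoc]
        _ = star S * P * (star T * S) * Q * T := by rw [hST'.eq]
        _ = star S * (P * star T) * (S * Q) * T := by simp only [mul_assoc]
        _ = star S * (star T * P) * (Q * S) * T := by rw [hTP.eq.symm, hSQ.eq]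
        _ = (star S * star T) * (P * Q) * (S * T) := by simp only [mul_assoc]
        _ = (star T * star S) * (P * Q) * (S * T) := by rw [hST.eq]
    rw [this]
    simp only [ev]
    congr 1
    rw [ContinuousLinearMap.mul_apply, ContinuousLinearMap.mul_apply,
      ContinuousLinearMap.star_eq_adjoint, ContinuousLinearMap.adjoint_inner_right]
    rw [ContinuousLinearMap.mul_apply S T, hTR2]
  rw [e1]
  have e2 : ‖ζ‖ ≤ K0 ^ 2 := by
    calc ‖ζ‖ ≤ K0 * ‖T (R' ψ)‖ := h2 _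
      _ ≤ K0 * (K0 * ‖ψ‖) := mul_le_mul_of_nonneg_left h4 hK0
      _ = K0 ^ 2 := by rw [hψ]; ring
  have e3 : ‖ζ - ψ‖ ≤ (K0 + K0 ^ 2) * (dE + dF) := by
    have : ζ - ψ = (S (R ψ) - ψ) + S (R (T (R' ψ) - ψ)) := by
      rw [hζ, map_sub, map_sub]; abel
    rw [this]
    calc _ ≤ ‖S (R ψ) - ψ‖ + ‖S (R (T (R' ψ) - ψ))‖ := norm_add_le _ _
      _ ≤ K0 * dE + K0 * (K0 * dF) :=
          add_le_add h1 ((h2 _).trans (mul_le_mul_of_nonneg_left h3 hK0))
      _ ≤ _ := by nlinarith [mul_nonneg hK0 hdF, mul_nonneg (sq_nonneg K0) hdE,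
            mul_nonneg hK0 hdE, mul_nonneg (sq_nonneg K0) hdF]
  have e4 := H4_ev_sub_le (P * Q) ζ ψ
  have e5 : ‖P * Q‖ ≤ 4 := by
    calc ‖P * Q‖ ≤ ‖P‖ * ‖Q‖ := norm_mul_le _ _
      _ ≤ 2 * 2 := mul_le_mul hP hQ (norm_nonneg _) (by norm_num)
      _ = 4 := by norm_num
  have e6 : ‖P * Q‖ * ‖ζ - ψ‖ * (‖ζ‖ + ‖ψ‖) ≤
      4 * ((K0 + K0 ^ 2) * (dE + dF)) * (K0 ^ 2 + 1) := by
    rw [hψ]
    have : 0 ≤ (K0 + K0 ^ 2) * (dE + dF) := by positivity
    gcongr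
  have e7 := (abs_le.1 e4).2
  nlinarith [e6, e7]

/-- H4: the single coordinate inequality (uses `renorm`, `naimark_two`) -/
theorem scl {X Y A B : Type} [Fintype X] [Fintype Y] [Fintype A] [Fintype B]
    (w : X → Y → ℝ) (hw : ∀ x y, 0 ≤ w x y) (V : X → Y → A → B → Bool)
    (SX : Finset X) (SY : Finset Y) (hS : ∀ x y, w x y ≠ 0 → x ∈ SX ∧ y ∈ SY)
    (x0 : X) (y0 : Y) (lam : ℝ) (hlam : 0 ≤ lam)
    (hyp : ∀ (H : Type) [NormedAddCommGroup H] [InnerProductSpace ℂ H] [CompleteSpace H]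
      (P : X → A → (H →L[ℂ] H)) (Q : Y → B → (H →L[ℂ] H)) (ψ : H), Pvm P → Pvm Q →
      (∀ x a y b, Commute (P x a) (Q y b)) → ‖ψ‖ = 1 → lam ≤ lose w V P Q ψ)
    (δ : ℝ) (hδ : 0 < δ) (hδ1 : δ ≤ 1) :
    ∃ K : ℝ, 0 ≤ K ∧ ∀ (H : Type) [NormedAddCommGroup H] [InnerProductSpace ℂ H] [CompleteSpace H]
      (P : X → A → (H →L[ℂ] H)) (Q : Y → B → (H →L[ℂ] H)) (ψ : H), ‖ψ‖ = 1 →
      (∀ x a, 0 ≤ P x a) → (∀ y b, 0 ≤ Q y b) → (∀ x a y b, Commute (P x a) (Q y b)) →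
      (∀ x, ((δ : ℝ) : ℂ) • (1 : H →L[ℂ] H) ≤ ∑ a, P x a) →
      (∀ x, ∑ a, P x a ≤ ((2 : ℝ) : ℂ) • (1 : H →L[ℂ] H)) →
      (∀ y, ((δ : ℝ) : ℂ) • (1 : H →L[ℂ] H) ≤ ∑ b, Q y b) →
      (∀ y, ∑ b, Q y b ≤ ((2 : ℝ) : ℂ) • (1 : H →L[ℂ] H)) →
      lam * ev ψ ((∑ a, P x0 a) * (∑ b, Q y0 b)) ≤ lose w V P Q ψ +
        K * (∑ x ∈ SX, ‖(∑ a, P x a) ψ - (∑ a, P x0 a) ψ‖ +
          ∑ y ∈ SY, ‖(∑ b, Q y b) ψ - (∑ b, Q y0 b) ψ‖) := by
  obtain ⟨K0, hK0, hren⟩ := renorm δ hδ hδ1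
  refine ⟨(∑ x, ∑ y, w x y) * ((Fintype.card A * Fintype.card B : ℝ) *
    (4 * (K0 ^ 2 + 1) * (K0 + K0 ^ 2))), ?_, ?_⟩
  · have : 0 ≤ ∑ x, ∑ y, w x y := Finset.sum_nonneg fun x _ => Finset.sum_nonneg fun y _ => hw x y
    positivity
  intro H _ _ _ P Q ψ hψ hP hQ hPQ hE1 hE2 hF1 hF2
  have : Nonempty A := H4_nonempty (P x0) δ hδ ψ hψ (hE1 x0)
  have : Nonempty B := H4_nonempty (Q y0) δ hδ ψ hψ (hF1 y0)
  obtain ⟨R, hRs, hRR, hRc, hRS⟩ := hren H (∑ a, P x0 a) (hE1 x0) (hE2 x0)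
  obtain ⟨R', hR's, hR'R', hR'c, hR'T⟩ := hren H (∑ b, Q y0 b) (hF1 y0) (hF2 y0)
  choose S hS1 hS2 hS3 hS4 using fun x => hRS (∑ a, P x a) (hE1 x) (hE2 x)
  choose T hT1 hT2 hT3 hT4 using fun y => hR'T (∑ b, Q y b) (hF1 y) (hF2 y)
  -- commutation
  have cEQ : ∀ x y b, Commute (Q y b) (∑ a, P x a) := fun x y b =>
    Commute.sum_right _ _ _ fun a _ => (hPQ x a y b).symm
  have cSQ : ∀ x y b, Commute (S x) (Q y b) ∧ Commute (star (S x)) (Q y b) := fun x y b =>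
    ⟨((hS2 x (Q y b) (cEQ x0 y b) (cEQ x y b)).1).symm,
      ((hS2 x (Q y b) (cEQ x0 y b) (cEQ x y b)).2).symm⟩
  have cRQ : ∀ y b, Commute R (Q y b) := fun y b => (hRc (Q y b) (cEQ x0 y b)).symm
  have cSF : ∀ x y, Commute (S x) (∑ b, Q y b) ∧ Commute (star (S x)) (∑ b, Q y b) := fun x y =>
    ⟨Commute.sum_right _ _ _ fun b _ => (cSQ x y b).1,
      Commute.sum_right _ _ _ fun b _ => (cSQ x y b).2⟩
  have cRF : ∀ y, Commute R (∑ b, Q y b) := fun y =>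
    Commute.sum_right _ _ _ fun b _ => cRQ y b
  have cPF : ∀ x a y, Commute (P x a) (∑ b, Q y b) := fun x a y =>
    Commute.sum_right _ _ _ fun b _ => hPQ x a y b
  have cEF : ∀ x y, Commute (∑ a, P x a) (∑ b, Q y b) := fun x y =>
    Commute.sum_left _ _ _ fun a _ => cPF x a y
  have cST : ∀ x y, Commute (S x) (star (T y)) := fun x y =>
    (hT2 y (S x) (cSF x y0).1 (cSF x y).1).2
  have cST2 : ∀ x y, Commute (star (S x)) (star (T y)) := fun x y =>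
    (hT2 y (star (S x)) (cSF x y0).2 (cSF x y).2).2
  have cTP : ∀ x a y, Commute (T y) (P x a) ∧ Commute (star (T y)) (P x a) := fun x a y =>
    ⟨(hT2 y (P x a) (cPF x a y0) (cPF x a y)).1.symm, (hT2 y (P x a) (cPF x a y0) (cPF x a y)).2.symm⟩
  have cTR : ∀ y, Commute (T y) R := fun y =>
    (hT2 y R (cRF y0) (cRF y)).1.symm
  have cER' : ∀ x, Commute (∑ a, P x a) R' := fun x => hR'c _ (cEF x y0)
  -- the POVMs
  have hM : Povm (fun x a => star (S x) * P x a * S x) := by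
    refine ⟨fun x a => star_left_conjugate_nonneg (hP x a) (S x), fun x => ?_⟩
    rw [← Finset.sum_mul, ← Finset.mul_sum]
    exact hS1 x
  have hN : Povm (fun y b => star (T y) * Q y b * T y) := by
    refine ⟨fun y b => star_left_conjugate_nonneg (hQ y b) (T y), fun y => ?_⟩
    rw [← Finset.sum_mul, ← Finset.mul_sum]
    exact hT1 y
  have cST3 : ∀ x y, Commute (S x) (T y) := fun x y =>
    (hT2 y (S x) (cSF x y0).1 (cSF x y).1).1
  have cST4 : ∀ x y, Commute (star (S x)) (T y) := fun x y =>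
    (hT2 y (star (S x)) (cSF x y0).2 (cSF x y).2).1
  have hMN : ∀ x a y b, Commute (star (S x) * P x a * S x) (star (T y) * Q y b * T y) := by
    intro x a y b
    refine Commute.mul_left (Commute.mul_left ?_ ?_) ?_
    · exact Commute.mul_right (Commute.mul_right (cST2 x y) (cSQ x y b).2) (cST4 x y)
    · exact Commute.mul_right (Commute.mul_right (cTP x a y).2.symm (hPQ x a y b)) (cTP x a y).1.symm
    · exact Commute.mul_right (Commute.mul_right (cST x y) (cSQ x y b).1) (cST3 x y)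
  have key := H4_povm w V lam hyp H _ _ hM hN hMN (R (R' ψ))
  -- the norm of `η`
  have hη : ‖R (R' ψ)‖ ^ 2 = ev ψ ((∑ a, P x0 a) * (∑ b, Q y0 b)) := by
    rw [← ev_one (R (R' ψ))]
    simp only [ev]
    congr 1
    have h1 : (∑ a, P x0 a) * (∑ b, Q y0 b) = (R' * R) * (R * R') := by
      rw [← hR'R']
      calc (∑ a, P x0 a) * (R' * R') = ((∑ a, P x0 a) * R') * R' := by rw [mul_assoc]
        _ = (R' * (∑ a, P x0 a)) * R' := by rw [(cER' x0).eq]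
        _ = _ := by rw [← hRR]; simp only [mul_assoc]
    rw [h1]
    have h2 : star (R * R') = R' * R := by rw [star_mul, hRs.star_eq, hR's.star_eq]
    rw [← h2, ContinuousLinearMap.mul_apply, ContinuousLinearMap.star_eq_adjoint,
      ContinuousLinearMap.adjoint_inner_right]
    simp
  rw [hη] at key
  refine key.trans ?_
  -- bound of the losing probability
  set dE : X → ℝ := fun x => ‖(∑ a, P x a) ψ - (∑ a, P x0 a) ψ‖ with hdE
  set dF : Y → ℝ := fun y => ‖(∑ b, Q y b) ψ - (∑ b, Q y0 b) ψ‖ with hdF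
  set D : ℝ := ∑ x ∈ SX, dE x + ∑ y ∈ SY, dF y with hD
  have hterm : ∀ x y a b, ev (R (R' ψ)) ((star (S x) * P x a * S x) * (star (T y) * Q y b * T y)) ≤
      ev ψ (P x a * Q y b) + 4 * (K0 ^ 2 + 1) * (K0 + K0 ^ 2) * (dE x + dF y) := by
    intro x y a b
    exact H4_term (P x a) (Q y b) R R' (S x) (T y) ψ hψ (cST2 x y) (cST x y)
      (cSQ x y b).1 (cTP x a y).2 (cTR y) (H4_norm_le (P x) (hP x) (hE2 x) a)
      (H4_norm_le (Q y) (hQ y) (hF2 y) b) K0 (dE x) (dF y) hK0 (norm_nonneg _) (norm_nonneg _)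
      (hS3 x ψ) (hS4 x) (hT3 y ψ) (hT4 y ψ)
  have hDnn : 0 ≤ D := by
    rw [hD]
    exact add_nonneg (Finset.sum_nonneg fun x _ => norm_nonneg _)
      (Finset.sum_nonneg fun x _ => norm_nonneg _)
  have hxy : ∀ x y, w x y * ∑ a, ∑ b, (if V x y a b = true then 0 else
        ev (R (R' ψ)) ((star (S x) * P x a * S x) * (star (T y) * Q y b * T y))) ≤
      w x y * ∑ a, ∑ b, (if V x y a b = true then 0 else ev ψ (P x a * Q y b)) +
      w x y * (((Fintype.card A * Fintype.card B : ℝ) *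
        (4 * (K0 ^ 2 + 1) * (K0 + K0 ^ 2))) * D) := by
    intro x y
    rw [← mul_add]
    by_cases h0 : w x y = 0
    · simp [h0]
    obtain ⟨hx, hy⟩ := hS x y h0
    refine mul_le_mul_of_nonneg_left ?_ (hw x y)
    have hle : dE x + dF y ≤ D := by
      rw [hD]
      exact add_le_add (Finset.single_le_sum (f := dE) (fun i _ => norm_nonneg _) hx)
        (Finset.single_le_sum (f := dF) (fun i _ => norm_nonneg _) hy)
    calc ∑ a, ∑ b, (if V x y a b = true then 0 else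
        ev (R (R' ψ)) ((star (S x) * P x a * S x) * (star (T y) * Q y b * T y)))
        ≤ ∑ a : A, ∑ b : B, ((if V x y a b = true then 0 else ev ψ (P x a * Q y b)) +
            (4 * (K0 ^ 2 + 1) * (K0 + K0 ^ 2)) * D) := by
          refine Finset.sum_le_sum fun a _ => Finset.sum_le_sum fun b _ => ?_
          split_ifs
          · have : 0 ≤ (4 * (K0 ^ 2 + 1) * (K0 + K0 ^ 2)) * D := by positivity
            linarith
          · refine (hterm x y a b).trans ?_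
            have : (4 * (K0 ^ 2 + 1) * (K0 + K0 ^ 2)) * (dE x + dF y) ≤
              (4 * (K0 ^ 2 + 1) * (K0 + K0 ^ 2)) * D :=
              mul_le_mul_of_nonneg_left hle (by positivity)
            linarith
      _ = _ := by
          simp only [Finset.sum_add_distrib, Finset.sum_const, Finset.card_univ, nsmul_eq_mul]
          ring
  calc lose w V (fun x a => star (S x) * P x a * S x) (fun y b => star (T y) * Q y b * T y)
        (R (R' ψ))
      ≤ ∑ x, ∑ y, (w x y * ∑ a, ∑ b, (if V x y a b = true then 0 else ev ψ (P x a * Q y b)) +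
      w x y * (((Fintype.card A * Fintype.card B : ℝ) *
        (4 * (K0 ^ 2 + 1) * (K0 + K0 ^ 2))) * D)) :=
        Finset.sum_le_sum fun x _ => Finset.sum_le_sum fun y _ => hxy x y
    _ = _ := by
        simp only [Finset.sum_add_distrib, lose]
        congr 1
        simp only [← Finset.sum_mul]
        ring

end Pool.Agent.H500R2.PR.TH4

namespace Pool.Agent.H500R2.PR

export TH4 (scl)

end Pool.Agent.H500R2.PR
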