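import Pool.Agent.H500R2.PR.Basic
import Pool.Agent.H500R2.PRF.H4
import Pool.Agent.H500R2.PR.K0
set_option autoImplicit false
open scoped InnerProductSpace
namespace Pool.Agent.H500R2.PR.TH5

/-- the elementary inequality -/
theorem h5_amgm (K' a D κ t : ℝ) (ht : 0 < t) (h : a ^ 2 ≤ κ * D) :
    K' * a ≤ t + K' ^ 2 * κ / (4 * t) * D := by
  have h1 : K' * a ≤ t + K' ^ 2 / (4 * t) * a ^ 2 := by
    have e : t + K' ^ 2 / (4 * t) * a ^ 2 - K' * a = (2 * t - K' * a) ^ 2 / (4 * t) := by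
      field_simp
      ring
    have : 0 ≤ (2 * t - K' * a) ^ 2 / (4 * t) := by positivity
    linarith
  have h2 : K' ^ 2 / (4 * t) * a ^ 2 ≤ K' ^ 2 / (4 * t) * (κ * D) :=
    mul_le_mul_of_nonneg_left h (by positivity)
  have e2 : K' ^ 2 / (4 * t) * (κ * D) = K' ^ 2 * κ / (4 * t) * D := by ring
  linarith

theorem h5_ev {H : Type} [NormedAddCommGroup H] [InnerProductSpace ℂ H] [CompleteSpace H]
    (ψ : H) (E E0 F F0 : H →L[ℂ] H) (hE : IsSelfAdjoint E) (hE0 : IsSelfAdjoint E0)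
    (h1 : ‖F ψ‖ ≤ 2) (h2 : ‖E0 ψ‖ ≤ 2) :
    ev ψ (E * F) ≤ ev ψ (E0 * F0) + 2 * ‖E ψ - E0 ψ‖ + 2 * ‖F ψ - F0 ψ‖ := by
  rw [ev_mul_eq ψ E F hE, ev_mul_eq ψ E0 F0 hE0]
  have e : ⟪E ψ, F ψ⟫_ℂ = ⟪E ψ - E0 ψ, F ψ⟫_ℂ + ⟪E0 ψ, F ψ - F0 ψ⟫_ℂ + ⟪E0 ψ, F0 ψ⟫_ℂ := by
    rw [inner_sub_left, inner_sub_right]
    ring
  rw [e, Complex.add_re, Complex.add_re]
  have a1 : (⟪E ψ - E0 ψ, F ψ⟫_ℂ).re ≤ 2 * ‖E ψ - E0 ψ‖ := by
    refine (Complex.re_le_norm _).trans ((norm_inner_le_norm _ _).trans ?_)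
    rw [mul_comm]
    exact mul_le_mul_of_nonneg_right h1 (norm_nonneg _)
  have a2 : (⟪E0 ψ, F ψ - F0 ψ⟫_ℂ).re ≤ 2 * ‖F ψ - F0 ψ‖ := by
    refine (Complex.re_le_norm _).trans ((norm_inner_le_norm _ _).trans ?_)
    exact mul_le_mul_of_nonneg_right h2 (norm_nonneg _)
  linarith

open Classical in
/-- averaging -/
theorem h5_avg {X Y : Type} [Fintype X] [Fintype Y] (μ : X → Y → ℝ) (hμ : ∀ x y, 0 ≤ μ x y)
    (hμ1 : ∑ x, ∑ y, μ x y = 1) (SX : Finset X) (SY : Finset Y) (e : X → Y → ℝ) (e0 : ℝ)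
    (he0 : 0 ≤ e0) (a : X → ℝ) (b : Y → ℝ) (ha : ∀ x, 0 ≤ a x) (hb : ∀ y, 0 ≤ b y)
    (he : ∀ u v, e u v ≤ e0 + 2 * a u + 2 * b v) :
    ∑ u, ∑ v, μ u v * ((if u ∈ SX ∧ v ∈ SY then 1 else 0) * e u v) ≤
      e0 + 2 * ∑ x ∈ SX, a x + 2 * ∑ y ∈ SY, b y := by
  have hm1 : ∀ u, ∑ v, μ u v ≤ 1 := by
    intro u
    rw [← hμ1]
    exact Finset.single_le_sum (f := fun u => ∑ v, μ u v)
      (fun u _ => Finset.sum_nonneg fun v _ => hμ u v) (Finset.mem_univ u)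
  have hm2 : ∀ v, ∑ u, μ u v ≤ 1 := by
    intro v
    rw [← hμ1, Finset.sum_comm]
    exact Finset.single_le_sum (f := fun v => ∑ u, μ u v)
      (fun v _ => Finset.sum_nonneg fun u _ => hμ u v) (Finset.mem_univ v)
  have h1 : ∀ u v, μ u v * ((if u ∈ SX ∧ v ∈ SY then 1 else 0) * e u v) ≤
      μ u v * e0 + 2 * (μ u v * (if u ∈ SX then a u else 0)) +
        2 * (μ u v * (if v ∈ SY then b v else 0)) := by
    intro u v
    have h0 := hμ u v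
    have hA := ha u
    have hB := hb v
    by_cases hu : u ∈ SX
    · by_cases hv : v ∈ SY
      · rw [if_pos ⟨hu, hv⟩, if_pos hu, if_pos hv, one_mul]
        have := mul_le_mul_of_nonneg_left (he u v) h0
        linarith
      · rw [if_neg (fun h => hv h.2), if_pos hu, if_neg hv, zero_mul, mul_zero]
        positivity
    · rw [if_neg (fun h => hu h.1), if_neg hu, zero_mul, mul_zero]
      by_cases hv : v ∈ SY
      · rw [if_pos hv]; positivity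
      · rw [if_neg hv]; positivity
  have h2 : ∑ u, ∑ v, μ u v * (if u ∈ SX then a u else 0) ≤ ∑ x ∈ SX, a x := by
    calc ∑ u, ∑ v, μ u v * (if u ∈ SX then a u else 0)
        = ∑ u, (∑ v, μ u v) * (if u ∈ SX then a u else 0) := by
          refine Finset.sum_congr rfl fun u _ => ?_
          rw [Finset.sum_mul]
      _ ≤ ∑ u, 1 * (if u ∈ SX then a u else 0) := by
          refine Finset.sum_le_sum fun u _ => mul_le_mul_of_nonneg_right (hm1 u) ?_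
          split_ifs
          · exact ha u
          · exact le_rfl
      _ = ∑ x ∈ SX, a x := by
          simp only [one_mul]
          rw [Finset.sum_ite_mem, Finset.univ_inter]
  have h3 : ∑ u, ∑ v, μ u v * (if v ∈ SY then b v else 0) ≤ ∑ y ∈ SY, b y := by
    rw [Finset.sum_comm]
    calc ∑ v, ∑ u, μ u v * (if v ∈ SY then b v else 0)
        = ∑ v, (∑ u, μ u v) * (if v ∈ SY then b v else 0) := by
          refine Finset.sum_congr rfl fun v _ => ?_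
          rw [Finset.sum_mul]
      _ ≤ ∑ v, 1 * (if v ∈ SY then b v else 0) := by
          refine Finset.sum_le_sum fun v _ => mul_le_mul_of_nonneg_right (hm2 v) ?_
          split_ifs
          · exact hb v
          · exact le_rfl
      _ = ∑ y ∈ SY, b y := by
          simp only [one_mul]
          rw [Finset.sum_ite_mem, Finset.univ_inter]
  have h4 : ∑ u, ∑ v, μ u v * e0 = e0 := by
    simp_rw [← Finset.sum_mul]
    rw [hμ1, one_mul]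
  calc ∑ u, ∑ v, μ u v * ((if u ∈ SX ∧ v ∈ SY then 1 else 0) * e u v)
      ≤ ∑ u, ∑ v, (μ u v * e0 + 2 * (μ u v * (if u ∈ SX then a u else 0)) +
        2 * (μ u v * (if v ∈ SY then b v else 0))) :=
        Finset.sum_le_sum fun u _ => Finset.sum_le_sum fun v _ => h1 u v
    _ = ∑ u, ∑ v, μ u v * e0 + 2 * ∑ u, ∑ v, μ u v * (if u ∈ SX then a u else 0) +
        2 * ∑ u, ∑ v, μ u v * (if v ∈ SY then b v else 0) := by
        simp only [Finset.sum_add_distrib, Finset.mul_sum]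
    _ ≤ _ := by
        rw [h4]
        linarith

open Classical in
/-- H5 (uses `scl`) -/
theorem scl2 {X Y A B : Type} [Fintype X] [Fintype Y] [Fintype A] [Fintype B]
    (μ : X → Y → ℝ) (hμ : ∀ x y, 0 ≤ μ x y) (hμ1 : ∑ x, ∑ y, μ x y = 1)
    (V : X → Y → A → B → Bool) (SX : Finset X) (SY : Finset Y)
    (x0 : X) (y0 : Y) (κ : ℝ) (hκ : 0 ≤ κ)
    (hκX : ∀ (H : Type) [NormedAddCommGroup H] [InnerProductSpace ℂ H] (h : X → H),
      ∀ x ∈ SX, ‖h x - h x0‖ ^ 2 ≤ κ * DX μ h)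
    (hκY : ∀ (H : Type) [NormedAddCommGroup H] [InnerProductSpace ℂ H] (h : Y → H),
      ∀ y ∈ SY, ‖h y - h y0‖ ^ 2 ≤ κ * DX (fun y x => μ x y) h)
    (lam : ℝ) (hlam : 0 < lam)
    (hyp : ∀ (H : Type) [NormedAddCommGroup H] [InnerProductSpace ℂ H] [CompleteSpace H]
      (P : X → A → (H →L[ℂ] H)) (Q : Y → B → (H →L[ℂ] H)) (ψ : H), Pvm P → Pvm Q →
      (∀ x a y b, Commute (P x a) (Q y b)) → ‖ψ‖ = 1 →
      lam ≤ lose (fun x y => if x ∈ SX ∧ y ∈ SY then μ x y else 0) V P Q ψ)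
    (δ θ : ℝ) (hδ : 0 < δ) (hδ1 : δ ≤ 1) (hθ : 0 < θ) :
    ∃ c1 : ℝ, 0 ≤ c1 ∧
      ∀ (H : Type) [NormedAddCommGroup H] [InnerProductSpace ℂ H] [CompleteSpace H]
      (P : X → A → (H →L[ℂ] H)) (Q : Y → B → (H →L[ℂ] H)) (ψ : H), ‖ψ‖ = 1 →
      (∀ x a, 0 ≤ P x a) → (∀ y b, 0 ≤ Q y b) → (∀ x a y b, Commute (P x a) (Q y b)) →
      (∀ x, ((δ : ℝ) : ℂ) • (1 : H →L[ℂ] H) ≤ ∑ a, P x a) →
      (∀ x, ∑ a, P x a ≤ ((2 : ℝ) : ℂ) • (1 : H →L[ℂ] H)) →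
      (∀ y, ((δ : ℝ) : ℂ) • (1 : H →L[ℂ] H) ≤ ∑ b, Q y b) →
      (∀ y, ∑ b, Q y b ≤ ((2 : ℝ) : ℂ) • (1 : H →L[ℂ] H)) →
      lam * ∑ u, ∑ v, μ u v * ((if u ∈ SX ∧ v ∈ SY then 1 else 0) *
          ev ψ ((∑ a, P u a) * (∑ b, Q v b))) ≤
        lose (fun x y => if x ∈ SX ∧ y ∈ SY then μ x y else 0) V P Q ψ +
        c1 * (DX μ (fun u => (∑ a, P u a) ψ) + DX (fun y x => μ x y) (fun v => (∑ b, Q v b) ψ))
        + θ := by
  obtain ⟨K, hK0, hK⟩ := scl (fun x y => if x ∈ SX ∧ y ∈ SY then μ x y else 0)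
    (fun x y => by
      show 0 ≤ (if x ∈ SX ∧ y ∈ SY then μ x y else 0)
      split_ifs
      · exact hμ x y
      · exact le_rfl) V SX SY
    (fun x y h => by
      by_contra hn
      exact h (if_neg hn)) x0 y0 lam hlam.le hyp δ hδ hδ1
  set K' : ℝ := K + 2 * lam with hK'
  have hK'0 : 0 ≤ K' := by positivity
  set m : ℝ := (SX.card : ℝ) + (SY.card : ℝ) with hm
  have hm0 : 0 ≤ m := by positivity
  set t : ℝ := θ / (m + 1) with ht
  have ht0 : 0 < t := by positivity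
  refine ⟨K' ^ 2 * κ / (4 * t) * m, by positivity, ?_⟩
  intro H _ _ _ P Q ψ hψ hP hQ hc hP1 hP2 hQ1 hQ2
  have hE0 : ∀ x, 0 ≤ ∑ a, P x a := fun x => Finset.sum_nonneg fun a _ => hP x a
  have hF0 : ∀ y, 0 ≤ ∑ b, Q y b := fun y => Finset.sum_nonneg fun b _ => hQ y b
  have hEn : ∀ x, ‖(∑ a, P x a) ψ‖ ≤ 2 := fun x => by
    have := norm_apply_le (∑ a, P x a) 2 (by norm_num) (hE0 x) (hP2 x) ψ
    rw [hψ, mul_one] at this
    exact this
  have hFn : ∀ y, ‖(∑ b, Q y b) ψ‖ ≤ 2 := fun y => by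
    have := norm_apply_le (∑ b, Q y b) 2 (by norm_num) (hF0 y) (hQ2 y) ψ
    rw [hψ, mul_one] at this
    exact this
  have hcc : ∀ x y, Commute (∑ a, P x a) (∑ b, Q y b) := fun x y =>
    Commute.sum_left _ _ _ fun a _ => Commute.sum_right _ _ _ fun b _ => hc x a y b
  have hmain := hK H P Q ψ hψ hP hQ hc hP1 hP2 hQ1 hQ2
  have he0 : 0 ≤ ev ψ ((∑ a, P x0 a) * (∑ b, Q y0 b)) :=
    ev_mul_nonneg ψ _ _ (hE0 x0) (hF0 y0) (hcc x0 y0)
  have havg := h5_avg μ hμ hμ1 SX SY (fun u v => ev ψ ((∑ a, P u a) * (∑ b, Q v b)))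
    (ev ψ ((∑ a, P x0 a) * (∑ b, Q y0 b))) he0
    (fun x => ‖(∑ a, P x a) ψ - (∑ a, P x0 a) ψ‖) (fun y => ‖(∑ b, Q y b) ψ - (∑ b, Q y0 b) ψ‖)
    (fun x => norm_nonneg _) (fun y => norm_nonneg _)
    (fun u v => h5_ev ψ _ _ _ _ (isSelfAdjoint_of_nonneg' _ (hE0 u))
      (isSelfAdjoint_of_nonneg' _ (hE0 x0)) (hFn v) (hEn x0))
  set SA : ℝ := ∑ x ∈ SX, ‖(∑ a, P x a) ψ - (∑ a, P x0 a) ψ‖ with hSA
  set SB : ℝ := ∑ y ∈ SY, ‖(∑ b, Q y b) ψ - (∑ b, Q y0 b) ψ‖ with hSB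
  set DA : ℝ := DX μ (fun u => (∑ a, P u a) ψ) with hDA
  set DB : ℝ := DX (fun y x => μ x y) (fun v => (∑ b, Q v b) ψ) with hDB
  have hDA0 : 0 ≤ DA := DX_nonneg μ hμ _
  have hDB0 : 0 ≤ DB := DX_nonneg (fun y x => μ x y) (fun y x => hμ x y) _
  have hA : K' * SA ≤ SX.card * (t + K' ^ 2 * κ / (4 * t) * DA) := by
    rw [hSA, Finset.mul_sum, ← nsmul_eq_mul]
    refine Finset.sum_le_card_nsmul _ _ _ fun x hx => ?_
    exact h5_amgm K' _ DA κ t ht0 (hκX H (fun u => (∑ a, P u a) ψ) x hx)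
  have hB : K' * SB ≤ SY.card * (t + K' ^ 2 * κ / (4 * t) * DB) := by
    rw [hSB, Finset.mul_sum, ← nsmul_eq_mul]
    refine Finset.sum_le_card_nsmul _ _ _ fun y hy => ?_
    exact h5_amgm K' _ DB κ t ht0 (hκY H (fun v => (∑ b, Q v b) ψ) y hy)
  have hmt : m * t ≤ θ := by
    rw [ht, ← mul_div_assoc, div_le_iff₀ (by positivity)]
    nlinarith
  set q : ℝ := K' ^ 2 * κ / (4 * t) with hq
  have hq0 : 0 ≤ q := by positivity
  have hA2 : (SX.card : ℝ) * (t + q * DA) ≤ SX.card * t + q * m * DA := by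
    have h1 : (SX.card : ℝ) ≤ m := by
      have : (0 : ℝ) ≤ SY.card := Nat.cast_nonneg _
      linarith
    have h2 : (SX.card : ℝ) * (q * DA) ≤ m * (q * DA) :=
      mul_le_mul_of_nonneg_right h1 (by positivity)
    linarith
  have hB2 : (SY.card : ℝ) * (t + q * DB) ≤ SY.card * t + q * m * DB := by
    have h1 : (SY.card : ℝ) ≤ m := by
      have : (0 : ℝ) ≤ SX.card := Nat.cast_nonneg _
      linarith
    have h2 : (SY.card : ℝ) * (q * DB) ≤ m * (q * DB) :=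
      mul_le_mul_of_nonneg_right h1 (by positivity)
    linarith
  have hcard : (SX.card : ℝ) * t + SY.card * t = m * t := by rw [hm]; ring
  have h9 := mul_le_mul_of_nonneg_left havg hlam.le
  have h10 : K' * SA + K' * SB = K * (SA + SB) + lam * (2 * SA + 2 * SB) := by
    rw [hK']; ring
  have h11 : q * m * (DA + DB) = q * m * DA + q * m * DB := by ring
  rw [h11]
  have h12 : lam * (ev ψ ((∑ a, P x0 a) * (∑ b, Q y0 b)) + 2 * SA + 2 * SB) =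
      lam * ev ψ ((∑ a, P x0 a) * (∑ b, Q y0 b)) + lam * (2 * SA + 2 * SB) := by ring
  rw [h12] at h9
  linarith

end Pool.Agent.H500R2.PR.TH5

namespace Pool.Agent.H500R2.PR

export TH5 (scl2)

end Pool.Agent.H500R2.PR
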