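import Pool.Agent.H500R2.PR.Basic
import Pool.Agent.H500R2.PR.H6
set_option autoImplicit false
open scoped InnerProductSpace
namespace Pool.Agent.H500R2.PR.TH7

/-- a measurement transported by a star homomorphism -/
theorem pvm_map {H K X A : Type} [NormedAddCommGroup H] [InnerProductSpace ℂ H] [CompleteSpace H]
    [NormedAddCommGroup K] [InnerProductSpace ℂ K] [CompleteSpace K] [Fintype A]
    (θ : (H →L[ℂ] H) →⋆ₐ[ℂ] (K →L[ℂ] K)) (P : X → A → (H →L[ℂ] H)) (hP : Pvm P) :
    Pvm (fun x a => θ (P x a)) := by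
  refine ⟨fun x a => ⟨?_, ?_⟩, fun x => ?_⟩
  · show θ (P x a) * θ (P x a) = θ (P x a)
    rw [← map_mul, (hP.1 x a).1.eq]
  · show star (θ (P x a)) = θ (P x a)
    rw [← map_star, (hP.1 x a).2.star_eq]
  · rw [← map_sum, hP.2 x, map_one]

open Classical in
theorem pvm_ite {K X A : Type} [NormedAddCommGroup K] [InnerProductSpace ℂ K] [CompleteSpace K]
    [Fintype A] (c : X → Prop) (P P' : X → A → (K →L[ℂ] K)) (hP : Pvm P) (hP' : Pvm P') :
    Pvm (fun x a => if c x then P x a else P' x a) := by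
  refine ⟨fun x a => ?_, fun x => ?_⟩
  · by_cases h : c x
    · simp only [h, if_true]; exact hP.1 x a
    · simp only [h, if_false]; exact hP'.1 x a
  · by_cases h : c x
    · simp only [h, if_true]; exact hP.2 x
    · simp only [h, if_false]; exact hP'.2 x

open Classical in
/-- H7: strategies for the different components can be combined (uses `tensor_two`) -/
theorem combine {X Y A B : Type} [Fintype X] [Fintype Y] [Fintype A] [Fintype B]
    (μ : X → Y → ℝ) (V : X → Y → A → B → Bool)
    (J : Type) [Fintype J] [Nonempty J] (cX : X → J) (cY : Y → J)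
    (hcol : ∀ x y, μ x y ≠ 0 → cX x = cY y)
    (h : ∀ (j : J) (lam : ℝ), 0 < lam →
      ∃ (H : Type) (_ : NormedAddCommGroup H) (_ : InnerProductSpace ℂ H) (_ : CompleteSpace H)
        (P : X → A → (H →L[ℂ] H)) (Q : Y → B → (H →L[ℂ] H)) (ψ : H), Pvm P ∧ Pvm Q ∧
        (∀ x a y b, Commute (P x a) (Q y b)) ∧ ‖ψ‖ = 1 ∧
        lose (fun x y => if cX x = j ∧ cY y = j then μ x y else 0) V P Q ψ < lam)
    (lam : ℝ) (hlam : 0 < lam) :
    ∃ (H : Type) (_ : NormedAddCommGroup H) (_ : InnerProductSpace ℂ H) (_ : CompleteSpace H)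
      (P : X → A → (H →L[ℂ] H)) (Q : Y → B → (H →L[ℂ] H)) (ψ : H), Pvm P ∧ Pvm Q ∧
      (∀ x a y b, Commute (P x a) (Q y b)) ∧ ‖ψ‖ = 1 ∧ lose μ V P Q ψ < lam := by
  have key : ∀ (J' : Finset J) (lam' : ℝ), 0 < lam' →
      ∃ (H : Type) (_ : NormedAddCommGroup H) (_ : InnerProductSpace ℂ H) (_ : CompleteSpace H)
        (P : X → A → (H →L[ℂ] H)) (Q : Y → B → (H →L[ℂ] H)) (ψ : H), Pvm P ∧ Pvm Q ∧
        (∀ x a y b, Commute (P x a) (Q y b)) ∧ ‖ψ‖ = 1 ∧
        ∀ j ∈ J', lose (fun x y => if cX x = j ∧ cY y = j then μ x y else 0) V P Q ψ < lam' := by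
    intro J'
    induction J' using Finset.induction_on with
    | empty =>
      intro lam' hl
      obtain ⟨H, i1, i2, i3, P, Q, ψ, h1, h2, h3, h4, _⟩ := h (Classical.arbitrary J) lam' hl
      exact ⟨H, i1, i2, i3, P, Q, ψ, h1, h2, h3, h4, by simp⟩
    | insert j0 J' hj0 ih =>
      intro lam' hl
      obtain ⟨H1, i1, i2, i3, P1, Q1, ψ1, hP1, hQ1, hc1, hn1, hl1⟩ := ih lam' hl
      obtain ⟨H2, k1, k2, k3, P2, Q2, ψ2, hP2, hQ2, hc2, hn2, hl2⟩ := h j0 lam' hl
      obtain ⟨K, m1, m2, m3, θ1, θ2, hθ, hΨ⟩ := tensor_two H1 H2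
      obtain ⟨Ψ, hΨn, hΨ1, hΨ2⟩ := hΨ ψ1 ψ2 hn1 hn2
      refine ⟨K, m1, m2, m3, fun x a => if cX x = j0 then θ2 (P2 x a) else θ1 (P1 x a),
        fun y b => if cY y = j0 then θ2 (Q2 y b) else θ1 (Q1 y b), Ψ,
        pvm_ite (fun x => cX x = j0) _ _ (pvm_map θ2 P2 hP2) (pvm_map θ1 P1 hP1),
        pvm_ite (fun y => cY y = j0) _ _ (pvm_map θ2 Q2 hQ2) (pvm_map θ1 Q1 hQ1), ?_, hΨn, ?_⟩
      · intro x a y b
        by_cases hx : cX x = j0 <;> by_cases hy : cY y = j0 <;>
          simp only [hx, hy, if_true, if_false]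
        · exact (hc2 x a y b).map θ2
        · exact (hθ _ _).symm
        · exact hθ _ _
        · exact (hc1 x a y b).map θ1
      · intro j hj
        rw [Finset.mem_insert] at hj
        by_cases hjj : j = j0
        · subst hjj
          refine lt_of_eq_of_lt ?_ hl2
          unfold lose
          refine Finset.sum_congr rfl fun x _ => Finset.sum_congr rfl fun y _ => ?_
          by_cases hxy : cX x = j ∧ cY y = j
          · simp only [hxy.1, hxy.2, and_self, if_true]
            congr 1
            refine Finset.sum_congr rfl fun a _ => Finset.sum_congr rfl fun b _ => ?_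
            congr 1
            unfold ev
            rw [← map_mul, hΨ2]
          · simp only [hxy, if_false, zero_mul]
        · have hj' : j ∈ J' := hj.resolve_left hjj
          refine lt_of_eq_of_lt ?_ (hl1 j hj')
          unfold lose
          refine Finset.sum_congr rfl fun x _ => Finset.sum_congr rfl fun y _ => ?_
          by_cases hxy : cX x = j ∧ cY y = j
          · simp only [hxy.1, hxy.2, and_self, if_true, hjj, if_false]
            congr 1
            refine Finset.sum_congr rfl fun a _ => Finset.sum_congr rfl fun b _ => ?_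
            congr 1
            unfold ev
            rw [← map_mul, hΨ1]
          · simp only [hxy, if_false, zero_mul]
  have hcard : (0 : ℝ) < Fintype.card J := by exact_mod_cast Fintype.card_pos
  obtain ⟨H, i1, i2, i3, P, Q, ψ, h1, h2, h3, h4, h5⟩ := key Finset.univ (lam / Fintype.card J)
    (div_pos hlam hcard)
  refine ⟨H, i1, i2, i3, P, Q, ψ, h1, h2, h3, h4, ?_⟩
  have hsum : lose μ V P Q ψ
      = ∑ j : J, lose (fun x y => if cX x = j ∧ cY y = j then μ x y else 0) V P Q ψ := by
    unfold lose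
    symm
    rw [Finset.sum_comm]
    refine Finset.sum_congr rfl fun x _ => ?_
    rw [Finset.sum_comm]
    refine Finset.sum_congr rfl fun y _ => ?_
    rw [← Finset.sum_mul]
    congr 1
    by_cases hxy : μ x y = 0
    · simp [hxy]
    · have hc := hcol x y hxy
      rw [Finset.sum_eq_single (cX x)]
      · simp [hc]
      · intro j _ hj
        exact if_neg (fun h1 => hj h1.1.symm)
      · intro hh; exact absurd (Finset.mem_univ _) hh
  rw [hsum]
  calc ∑ j : J, lose (fun x y => if cX x = j ∧ cY y = j then μ x y else 0) V P Q ψ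
      < ∑ j : J, lam / Fintype.card J :=
        Finset.sum_lt_sum_of_nonempty Finset.univ_nonempty fun j hj => h5 j hj
    _ = lam := by
        rw [Finset.sum_const, Finset.card_univ, nsmul_eq_mul]
        field_simp

end Pool.Agent.H500R2.PR.TH7

namespace Pool.Agent.H500R2.PR

export TH7 (combine)

end Pool.Agent.H500R2.PR
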