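import Pool.Agent.H500R2.PR.Basic
import Pool.Agent.H500R2.PR.K3
set_option autoImplicit false
open scoped InnerProductSpace
namespace Pool.Agent.H500R2.PR.TK4

section k4
variable {X Y : Type} [Fintype X] [Fintype Y]

/-- reversal of the coordinates -/
def k4_e (n : ℕ) (Z : Type) : (Fin n → Z) ≃ (Fin n → Z) where
  toFun s := fun j => s (Fin.rev j)
  invFun s := fun j => s (Fin.rev j)
  left_inv s := by funext j; simp
  right_inv s := by funext j; simp

theorem k4_e_apply (n : ℕ) (Z : Type) (s : Fin n → Z) (j : Fin n) : k4_e n Z s j = s (Fin.rev j) := rfl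

theorem k4_pw (μ : X → Y → ℝ) {n : ℕ} (s : Fin n → X) (t : Fin n → Y) :
    pw (fun y x => μ x y) (k4_e n Y t) (k4_e n X s) = pw μ s t := by
  unfold pw
  exact Equiv.prod_comp Fin.revPerm (fun j => μ (s j) (t j))

theorem k4_k (μ : X → Y → ℝ) {n : ℕ} (i : Fin n) (s : Fin n → X) (t : Fin n → Y) (v : Y)
    (y : Fin n → Y) :
    kA (fun y x => μ x y) (Fin.rev i) (k4_e n Y t) (k4_e n X s) v (k4_e n Y y) = kB μ i s t v y := by
  classical
  unfold kA kB
  rw [← Equiv.prod_comp Fin.revPerm]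
  refine Finset.prod_congr rfl fun j _ => ?_
  simp only [Fin.revPerm_apply, k4_e_apply, Fin.rev_rev, Fin.rev_lt_rev, Fin.rev_inj]
  rcases lt_trichotomy i j with h | h | h
  · rw [if_pos h, if_neg (not_lt.2 h.le), if_neg (Ne.symm (ne_of_lt h))]
    rfl
  · subst h
    rw [if_neg (lt_irrefl _), if_neg (lt_irrefl _), if_pos rfl, if_pos rfl]
  · rw [if_neg (not_lt.2 h.le), if_pos h, if_neg (ne_of_lt h)]

/-- K4 -/
theorem tele_B {H : Type} [NormedAddCommGroup H] [InnerProductSpace ℂ H]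
    (μ : X → Y → ℝ) (hμ : ∀ x y, 0 ≤ μ x y) (hμ1 : ∑ x, ∑ y, μ x y = 1)
    (n : ℕ) (g : (Fin n → Y) → H) :
    ∑ i : Fin n, ∑ s : Fin n → X, ∑ t : Fin n → Y,
      pw μ s t * DX (fun y x => μ x y) (fun v => ∑ y, ((kB μ i s t v y : ℝ) : ℂ) • g y) ≤
      ∑ y, (∏ j, mY μ (y j)) * ‖g y‖ ^ 2 := by
  classical
  have hμ1' : ∑ y, ∑ x, (fun y x => μ x y) y x = 1 := by rw [Finset.sum_comm]; exact hμ1
  have key := tele_A (fun y x => μ x y) (fun y x => hμ x y) hμ1' n (fun y => g (k4_e n Y y))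
  have hR : ∑ x, (∏ j, mX (fun y x => μ x y) (x j)) * ‖g (k4_e n Y x)‖ ^ 2 =
      ∑ y, (∏ j, mY μ (y j)) * ‖g y‖ ^ 2 := by
    rw [← Equiv.sum_comp (k4_e n Y)]
    refine Finset.sum_congr rfl fun y _ => ?_
    congr 1
    · exact Equiv.prod_comp Fin.revPerm (fun j => mX (fun y x => μ x y) (y j))
    · congr 2
      congr 1
      funext j
      simp [k4_e_apply]
  rw [hR] at key
  refine le_trans (le_of_eq ?_) key
  rw [← Equiv.sum_comp Fin.revPerm (fun i : Fin n => ∑ s : Fin n → Y, ∑ t : Fin n → X,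
      pw (fun y x => μ x y) s t * DX (fun y x => μ x y)
        (fun u => ∑ x, ((kA (fun y x => μ x y) i s t u x : ℝ) : ℂ) • g (k4_e n Y x)))]
  refine Finset.sum_congr rfl fun i _ => ?_
  rw [← Equiv.sum_comp (k4_e n Y), Finset.sum_comm]
  refine Finset.sum_congr rfl fun t _ => ?_
  rw [← Equiv.sum_comp (k4_e n X) (fun s => pw (fun y x => μ x y) (k4_e n Y t) s *
      DX (fun y x => μ x y) (fun u => ∑ x, ((kA (fun y x => μ x y) (Fin.revPerm i) (k4_e n Y t)
        s u x : ℝ) : ℂ) • g (k4_e n Y x)))]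
  refine Finset.sum_congr rfl fun s _ => ?_
  rw [k4_pw]
  congr 2
  funext v
  rw [← Equiv.sum_comp (k4_e n Y) (fun x => ((kA (fun y x => μ x y) (Fin.revPerm i) (k4_e n Y t)
    (k4_e n X s) v x : ℝ) : ℂ) • g (k4_e n Y x))]
  refine Finset.sum_congr rfl fun y _ => ?_
  rw [Fin.revPerm_apply, k4_k]
  congr 2
  funext j
  simp [k4_e_apply]

end k4

end Pool.Agent.H500R2.PR.TK4

namespace Pool.Agent.H500R2.PR

export TK4 (tele_B)

end Pool.Agent.H500R2.PR
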