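import Pool.Agent.H500R2.PR.Basic
import Pool.Agent.H500R2.PR.K2
set_option autoImplicit false
open scoped InnerProductSpace
namespace Pool.Agent.H500R2.PR.TK5

open Pool.Agent.H500R2.PR

theorem K5_ev {H : Type} [NormedAddCommGroup H] [InnerProductSpace ℂ H] {ι κ : Type} [Fintype ι] [Fintype κ]
    (ψ : H) (a : ι → ℝ) (b : κ → ℝ) (S : ι → (H →L[ℂ] H)) (T : κ → (H →L[ℂ] H)) :
    ev ψ ((∑ x, ((a x : ℝ) : ℂ) • S x) * (∑ y, ((b y : ℝ) : ℂ) • T y)) =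
      ∑ x, ∑ y, a x * b y * ev ψ (S x * T y) := by
  rw [Finset.sum_mul_sum, ev_sum]
  refine Finset.sum_congr rfl fun x _ => ?_
  rw [ev_sum]
  refine Finset.sum_congr rfl fun y _ => ?_
  rw [smul_mul_smul_comm, ← Complex.ofReal_mul, ev_smul]

/-- K5 -/
theorem bil {X Y : Type} [Fintype X] [Fintype Y] {H : Type} [NormedAddCommGroup H] [InnerProductSpace ℂ H]
    (μ : X → Y → ℝ) (hμ : ∀ x y, 0 ≤ μ x y) (hμ1 : ∑ x, ∑ y, μ x y = 1)
    (n : ℕ) (i : Fin n) (g : X → Y → ℝ) (ψ : H)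
    (S : (Fin n → X) → (H →L[ℂ] H)) (T : (Fin n → Y) → (H →L[ℂ] H)) :
    ∑ s : Fin n → X, ∑ t : Fin n → Y, pw μ s t *
      (∑ u, ∑ v, μ u v * (g u v * ev ψ ((∑ x, ((kA μ i s t u x : ℝ) : ℂ) • S x) *
        (∑ y, ((kB μ i s t v y : ℝ) : ℂ) • T y)))) =
      ∑ x, ∑ y, pw μ x y * (g (x i) (y i) * ev ψ (S x * T y)) := by
  classical
  have h1 : ∑ s : Fin n → X, ∑ t : Fin n → Y, pw μ s t *
      (∑ u, ∑ v, μ u v * (g u v * ev ψ ((∑ x, ((kA μ i s t u x : ℝ) : ℂ) • S x) *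
        (∑ y, ((kB μ i s t v y : ℝ) : ℂ) • T y)))) =
      ∑ st : (Fin n → X) × (Fin n → Y), ∑ uv : X × Y, ∑ xy : (Fin n → X) × (Fin n → Y),
        (g uv.1 uv.2 * ev ψ (S xy.1 * T xy.2)) *
        (pw μ st.1 st.2 * (μ uv.1 uv.2 * kA μ i st.1 st.2 uv.1 xy.1 * kB μ i st.1 st.2 uv.2 xy.2)) := by
    rw [Fintype.sum_prod_type]
    refine Finset.sum_congr rfl fun s _ => Finset.sum_congr rfl fun t _ => ?_
    rw [Fintype.sum_prod_type, Finset.mul_sum]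
    refine Finset.sum_congr rfl fun u _ => ?_
    rw [Finset.mul_sum]
    refine Finset.sum_congr rfl fun v _ => ?_
    rw [Fintype.sum_prod_type, K5_ev, Finset.mul_sum, Finset.mul_sum, Finset.mul_sum]
    refine Finset.sum_congr rfl fun x _ => ?_
    rw [Finset.mul_sum, Finset.mul_sum, Finset.mul_sum]
    refine Finset.sum_congr rfl fun y _ => ?_
    ring
  rw [h1]
  have h2 : ∑ st : (Fin n → X) × (Fin n → Y), ∑ uv : X × Y, ∑ xy : (Fin n → X) × (Fin n → Y),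
        (g uv.1 uv.2 * ev ψ (S xy.1 * T xy.2)) *
        (pw μ st.1 st.2 * (μ uv.1 uv.2 * kA μ i st.1 st.2 uv.1 xy.1 * kB μ i st.1 st.2 uv.2 xy.2)) =
      ∑ xy : (Fin n → X) × (Fin n → Y), ∑ uv : X × Y, ∑ st : (Fin n → X) × (Fin n → Y),
        (g uv.1 uv.2 * ev ψ (S xy.1 * T xy.2)) *
        (pw μ st.1 st.2 * (μ uv.1 uv.2 * kA μ i st.1 st.2 uv.1 xy.1 * kB μ i st.1 st.2 uv.2 xy.2)) := by
    rw [Finset.sum_congr rfl fun st _ => Finset.sum_comm]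
    rw [Finset.sum_comm]
    exact Finset.sum_congr rfl fun xy _ => Finset.sum_comm
  rw [h2, Fintype.sum_prod_type]
  refine Finset.sum_congr rfl fun x _ => Finset.sum_congr rfl fun y _ => ?_
  have h3 : ∀ uv : X × Y, ∑ st : (Fin n → X) × (Fin n → Y),
        (g uv.1 uv.2 * ev ψ (S x * T y)) *
        (pw μ st.1 st.2 * (μ uv.1 uv.2 * kA μ i st.1 st.2 uv.1 x * kB μ i st.1 st.2 uv.2 y)) =
      (g uv.1 uv.2 * ev ψ (S x * T y)) * (if x i = uv.1 ∧ y i = uv.2 then pw μ x y else 0) := by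
    intro uv
    rw [← Finset.mul_sum, Fintype.sum_prod_type, k_joint μ hμ hμ1 i uv.1 uv.2 x y]
  rw [Finset.sum_congr rfl fun uv _ => h3 uv]
  rw [Finset.sum_eq_single (x i, y i)]
  · simp only [and_self, if_true]
    ring
  · intro b _ hb
    rw [if_neg, mul_zero]
    rintro ⟨h4, h5⟩
    exact hb (Prod.ext h4.symm h5.symm)
  · intro h
    exact absurd (Finset.mem_univ _) h

end Pool.Agent.H500R2.PR.TK5

namespace Pool.Agent.H500R2.PR

export TK5 (bil)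

end Pool.Agent.H500R2.PR
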