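import Pool.Agent.H500R2.PR.Basic
import Pool.Agent.H500R2.PR.K0

set_option autoImplicit false
open scoped InnerProductSpace

namespace Pool.Agent.H500R2.PR.TK6

open Pool.Agent.H500R2.PR

variable {X Y : Type} [Fintype X] [Fintype Y]

private theorem k6_step (μ : X → Y → ℝ) (hμ : ∀ x y, 0 ≤ μ x y) (a b : X) (hab : RX μ a b) :
    ∃ K : ℝ, 0 ≤ K ∧ ∀ (H : Type) [NormedAddCommGroup H] [InnerProductSpace ℂ H] (h : X → H),
      ‖h b - h a‖ ^ 2 ≤ K * DX μ h := by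
  obtain ⟨y, ha, hb⟩ := hab
  have hm : 0 < mY μ y := by
    unfold mY
    exact lt_of_lt_of_le ha (Finset.single_le_sum (f := fun x => μ x y) (fun x _ => hμ x y)
      (Finset.mem_univ a))
  have hmn : ∀ y, 0 ≤ mY μ y := fun y => Finset.sum_nonneg (fun x _ => hμ x y)
  have hc : 0 < μ a y * μ b y / mY μ y := div_pos (mul_pos ha hb) hm
  refine ⟨2 / (μ a y * μ b y / mY μ y), (div_pos two_pos hc).le, ?_⟩
  intro H _ _ h
  have hnn : ∀ (y : Y) (x x' : X), 0 ≤ (μ x y * μ x' y / mY μ y) * ‖h x - h x'‖ ^ 2 := by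
    intro y x x'
    exact mul_nonneg (div_nonneg (mul_nonneg (hμ _ _) (hμ _ _)) (hmn y)) (sq_nonneg _)
  have h1 : (μ a y * μ b y / mY μ y) * ‖h a - h b‖ ^ 2 ≤
      ∑ y, ∑ x, ∑ x', (μ x y * μ x' y / mY μ y) * ‖h x - h x'‖ ^ 2 := by
    refine le_trans ?_ (Finset.single_le_sum
      (f := fun y => ∑ x, ∑ x', (μ x y * μ x' y / mY μ y) * ‖h x - h x'‖ ^ 2)
      (fun y _ => Finset.sum_nonneg (fun x _ => Finset.sum_nonneg (fun x' _ => hnn y x x')))
      (Finset.mem_univ y))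
    refine le_trans ?_ (Finset.single_le_sum
      (f := fun x => ∑ x', (μ x y * μ x' y / mY μ y) * ‖h x - h x'‖ ^ 2)
      (fun x _ => Finset.sum_nonneg (fun x' _ => hnn y x x'))
      (Finset.mem_univ a))
    exact Finset.single_le_sum
      (f := fun x' => (μ a y * μ x' y / mY μ y) * ‖h a - h x'‖ ^ 2)
      (fun x' _ => hnn y a x') (Finset.mem_univ b)
  have h2 := DX_eq μ hμ h
  have h3 : (μ a y * μ b y / mY μ y) * ‖h a - h b‖ ^ 2 ≤ 2 * DX μ h := by linarith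
  rw [norm_sub_rev (h b) (h a)]
  rw [div_mul_eq_mul_div, le_div_iff₀ hc]
  linarith

private theorem k6_chain (μ : X → Y → ℝ) (hμ : ∀ x y, 0 ≤ μ x y) (a b : X)
    (hab : Relation.EqvGen (RX μ) a b) :
    ∃ K : ℝ, 0 ≤ K ∧ ∀ (H : Type) [NormedAddCommGroup H] [InnerProductSpace ℂ H] (h : X → H),
      ‖h b - h a‖ ^ 2 ≤ K * DX μ h := by
  induction hab with
  | rel x y hxy => exact k6_step μ hμ x y hxy
  | refl x => exact ⟨0, le_refl _, fun H _ _ h => by simp⟩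
  | symm x y _ ih =>
    obtain ⟨K, hK, hh⟩ := ih
    exact ⟨K, hK, fun H _ _ h => by rw [norm_sub_rev]; exact hh H h⟩
  | trans x y z _ _ ih1 ih2 =>
    obtain ⟨K1, hK1, hh1⟩ := ih1
    obtain ⟨K2, hK2, hh2⟩ := ih2
    refine ⟨2 * K1 + 2 * K2, by positivity, fun H _ _ h => ?_⟩
    have e1 := hh1 H h
    have e2 := hh2 H h
    have e3 : ‖h z - h x‖ ≤ ‖h z - h y‖ + ‖h y - h x‖ := by
      have : h z - h x = (h z - h y) + (h y - h x) := by abel
      rw [this]; exact norm_add_le _ _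
    have e4 : ‖h z - h x‖ ^ 2 ≤ (‖h z - h y‖ + ‖h y - h x‖) ^ 2 :=
      pow_le_pow_left₀ (norm_nonneg _) e3 2
    nlinarith [sq_nonneg (‖h z - h y‖ - ‖h y - h x‖)]

/-- K6 -/
theorem poinc_X (μ : X → Y → ℝ) (hμ : ∀ x y, 0 ≤ μ x y) (x0 : X) :
    ∃ κ : ℝ, 0 ≤ κ ∧ ∀ (H : Type) [NormedAddCommGroup H] [InnerProductSpace ℂ H] (h : X → H)
      (x : X), Relation.EqvGen (RX μ) x0 x → ‖h x - h x0‖ ^ 2 ≤ κ * DX μ h := by
  classical
  have hex : ∀ x : X, ∃ K : ℝ, 0 ≤ K ∧ (Relation.EqvGen (RX μ) x0 x →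
      ∀ (H : Type) [NormedAddCommGroup H] [InnerProductSpace ℂ H] (h : X → H),
      ‖h x - h x0‖ ^ 2 ≤ K * DX μ h) := by
    intro x
    by_cases hx : Relation.EqvGen (RX μ) x0 x
    · obtain ⟨K, hK, hh⟩ := k6_chain μ hμ x0 x hx
      exact ⟨K, hK, fun _ => hh⟩
    · exact ⟨0, le_refl _, fun h => absurd h hx⟩
  choose K hK hh using hex
  refine ⟨∑ x, K x, Finset.sum_nonneg (fun x _ => hK x), ?_⟩
  intro H _ _ h x hx
  refine le_trans (hh x hx H h) ?_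
  refine mul_le_mul_of_nonneg_right ?_ (DX_nonneg μ hμ h)
  exact Finset.single_le_sum (fun x _ => hK x) (Finset.mem_univ x)

end Pool.Agent.H500R2.PR.TK6

namespace Pool.Agent.H500R2.PR

export TK6 (poinc_X)

end Pool.Agent.H500R2.PR
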