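import Pool.Agent.H500R2.PR.Basic
import Pool.Agent.H500R2.PR.K0
set_option autoImplicit false
open scoped InnerProductSpace
namespace Pool.Agent.H500R2.PR.TK7

open Pool.Agent.H500R2.PR

variable {X Y : Type} [Fintype X] [Fintype Y]

theorem K7_step (μ : X → Y → ℝ) (hμ : ∀ x y, 0 ≤ μ x y) (x : X) (y y' : Y)
    (h1 : 0 < μ x y) (h2 : 0 < μ x y') :
    ∃ K : ℝ, 0 ≤ K ∧ ∀ (H : Type) [NormedAddCommGroup H] [InnerProductSpace ℂ H] (h : Y → H),
      ‖h y - h y'‖ ^ 2 ≤ K * DX (fun y x => μ x y) h := by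
  set m : ℝ := mY (fun (y : Y) (x : X) => μ x y) x with hm
  have hmpos : 0 < m := by
    rw [hm]
    unfold mY
    exact lt_of_lt_of_le h1 (Finset.single_le_sum (f := fun y => μ x y)
      (fun y _ => hμ x y) (Finset.mem_univ y))
  refine ⟨2 * m / (μ x y * μ x y'), by positivity, fun H _ _ h => ?_⟩
  have hmY : ∀ a : X, 0 ≤ mY (fun (y : Y) (x : X) => μ x y) a := by
    intro a; unfold mY; exact Finset.sum_nonneg fun b _ => hμ a b
  have e := DX_eq (fun (y : Y) (x : X) => μ x y) (fun y x => hμ x y) h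
  have hterm : ∀ (a : X) (b b' : Y),
      0 ≤ (μ a b * μ a b' / mY (fun (y : Y) (x : X) => μ x y) a) * ‖h b - h b'‖ ^ 2 :=
    fun a b b' => mul_nonneg (div_nonneg (mul_nonneg (hμ _ _) (hμ _ _)) (hmY a)) (sq_nonneg _)
  have s1 : (μ x y * μ x y' / m) * ‖h y - h y'‖ ^ 2 ≤
      ∑ b', (μ x y * μ x b' / m) * ‖h y - h b'‖ ^ 2 :=
    Finset.single_le_sum (f := fun b' => (μ x y * μ x b' / m) * ‖h y - h b'‖ ^ 2)
      (fun b' _ => hterm x y b') (Finset.mem_univ y')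
  have s2 : ∑ b', (μ x y * μ x b' / m) * ‖h y - h b'‖ ^ 2 ≤
      ∑ b, ∑ b', (μ x b * μ x b' / m) * ‖h b - h b'‖ ^ 2 :=
    Finset.single_le_sum (f := fun b => ∑ b', (μ x b * μ x b' / m) * ‖h b - h b'‖ ^ 2)
      (fun b _ => Finset.sum_nonneg fun b' _ => hterm x b b') (Finset.mem_univ y)
  have s3 : ∑ b, ∑ b', (μ x b * μ x b' / m) * ‖h b - h b'‖ ^ 2 ≤
      ∑ a, ∑ b, ∑ b', (μ a b * μ a b' / mY (fun (y : Y) (x : X) => μ x y) a) *
        ‖h b - h b'‖ ^ 2 :=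
    Finset.single_le_sum (f := fun a => ∑ b, ∑ b',
      (μ a b * μ a b' / mY (fun (y : Y) (x : X) => μ x y) a) * ‖h b - h b'‖ ^ 2)
      (fun a _ => Finset.sum_nonneg fun b _ => Finset.sum_nonneg fun b' _ => hterm a b b')
      (Finset.mem_univ x)
  have s4 : (μ x y * μ x y' / m) * ‖h y - h y'‖ ^ 2 ≤ 2 * DX (fun y x => μ x y) h := by
    rw [e]; linarith
  have hpos : 0 < μ x y * μ x y' := mul_pos h1 h2
  rw [div_mul_eq_mul_div, le_div_iff₀ hpos]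
  rw [div_mul_eq_mul_div, div_le_iff₀ hmpos] at s4
  linarith

theorem K7_reach (μ : X → Y → ℝ) (hμ : ∀ x y, 0 ≤ μ x y) (x0 : X) (y0 : Y)
    (h0 : 0 < μ x0 y0) (x : X) (hx : Relation.ReflTransGen (RX μ) x0 x) :
    ∀ y, 0 < μ x y →
    ∃ K : ℝ, 0 ≤ K ∧ ∀ (H : Type) [NormedAddCommGroup H] [InnerProductSpace ℂ H] (h : Y → H),
      ‖h y - h y0‖ ^ 2 ≤ K * DX (fun y x => μ x y) h := by
  induction hx with
  | refl => intro y hy; exact K7_step μ hμ x0 y y0 hy h0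
  | @tail b c _ hbc ih =>
    intro y hy
    obtain ⟨z, hbz, hcz⟩ := hbc
    obtain ⟨K1, hK1, hk1⟩ := ih z hbz
    obtain ⟨K2, hK2, hk2⟩ := K7_step μ hμ c y z hy hcz
    refine ⟨2 * K2 + 2 * K1, by positivity, fun H _ _ h => ?_⟩
    have a1 := hk1 H h
    have a2 := hk2 H h
    have a3 : ‖h y - h y0‖ ≤ ‖h y - h z‖ + ‖h z - h y0‖ := by
      have e : h y - h y0 = (h y - h z) + (h z - h y0) := by abel
      rw [e]; exact norm_add_le _ _
    have a4 : ‖h y - h y0‖ ^ 2 ≤ 2 * ‖h y - h z‖ ^ 2 + 2 * ‖h z - h y0‖ ^ 2 := by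
      have b1 := norm_nonneg (h y - h y0)
      nlinarith [sq_nonneg (‖h y - h z‖ - ‖h z - h y0‖), norm_nonneg (h y - h z),
        norm_nonneg (h z - h y0)]
    linarith

theorem K7_eqv (μ : X → Y → ℝ) (a b : X) (h : Relation.EqvGen (RX μ) a b) :
    Relation.ReflTransGen (RX μ) a b := by
  have hsym : ∀ a b, RX μ a b → RX μ b a := by
    rintro a b ⟨y, h1, h2⟩; exact ⟨y, h2, h1⟩
  have hs : ∀ a b, Relation.ReflTransGen (RX μ) a b → Relation.ReflTransGen (RX μ) b a := by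
    intro a b hab
    induction hab with
    | refl => exact Relation.ReflTransGen.refl
    | tail _ hbc ih => exact Relation.ReflTransGen.head (hsym _ _ hbc) ih
  induction h with
  | rel a b h => exact Relation.ReflTransGen.single h
  | refl a => exact Relation.ReflTransGen.refl
  | symm a b _ ih => exact hs _ _ ih
  | trans a b c _ _ ih1 ih2 => exact ih1.trans ih2

/-- K7 -/
theorem poinc_Y (μ : X → Y → ℝ) (hμ : ∀ x y, 0 ≤ μ x y) (x0 : X) (y0 : Y) (h0 : 0 < μ x0 y0) :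
    ∃ κ : ℝ, 0 ≤ κ ∧ ∀ (H : Type) [NormedAddCommGroup H] [InnerProductSpace ℂ H] (h : Y → H)
      (y : Y), (∃ x, Relation.EqvGen (RX μ) x0 x ∧ 0 < μ x y) →
        ‖h y - h y0‖ ^ 2 ≤ κ * DX (fun y x => μ x y) h := by
  classical
  have hex : ∀ y : Y, ∃ K : ℝ, 0 ≤ K ∧ ((∃ x, Relation.EqvGen (RX μ) x0 x ∧ 0 < μ x y) →
      ∀ (H : Type) [NormedAddCommGroup H] [InnerProductSpace ℂ H] (h : Y → H),
        ‖h y - h y0‖ ^ 2 ≤ K * DX (fun y x => μ x y) h) := by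
    intro y
    by_cases hy : ∃ x, Relation.EqvGen (RX μ) x0 x ∧ 0 < μ x y
    · obtain ⟨x, hx, hxy⟩ := hy
      obtain ⟨K, hK, hk⟩ := K7_reach μ hμ x0 y0 h0 x (K7_eqv μ x0 x hx) y hxy
      exact ⟨K, hK, fun _ => hk⟩
    · exact ⟨0, le_rfl, fun h => absurd h hy⟩
  choose K hK hk using hex
  refine ⟨∑ y, K y, Finset.sum_nonneg fun y _ => hK y, fun H _ _ h y hy => ?_⟩
  refine (hk y hy H h).trans ?_
  refine mul_le_mul_of_nonneg_right ?_ (DX_nonneg (fun (y : Y) (x : X) => μ x y)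
    (fun y x => hμ x y) h)
  exact Finset.single_le_sum (f := K) (fun y _ => hK y) (Finset.mem_univ y)

end Pool.Agent.H500R2.PR.TK7

namespace Pool.Agent.H500R2.PR

export TK7 (poinc_Y)

end Pool.Agent.H500R2.PR
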