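import Pool.Agent.H500R2.PR.Basic
import Pool.Agent.H500R2.PR.S0
import Pool.Agent.H500R2.PR.S4
import Pool.Agent.H500R2.PR.K1
set_option autoImplicit false
open scoped InnerProductSpace
namespace Pool.Agent.H500R2.PR.TS5

section
variable {H : Type} [NormedAddCommGroup H] [InnerProductSpace ℂ H] [CompleteSpace H]

private theorem s5_smul_nonneg {r : ℝ} (hr : 0 ≤ r) {T : H →L[ℂ] H} (hT : 0 ≤ T) :
    0 ≤ ((r : ℝ) : ℂ) • T := by
  rw [ContinuousLinearMap.nonneg_iff_isPositive] at hT ⊢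
  exact hT.smul_of_nonneg (by exact_mod_cast Complex.zero_le_real.2 hr)

private theorem s5_one_nonneg : (0 : H →L[ℂ] H) ≤ 1 := by
  rw [ContinuousLinearMap.nonneg_iff_isPositive]
  exact ContinuousLinearMap.isPositive_one

private theorem s5_avg_le {ι : Type} [Fintype ι] {c : ι → ℝ} (hc : ∀ x, 0 ≤ c x)
    {S T : ι → (H →L[ℂ] H)} (h : ∀ x, S x ≤ T x) :
    ∑ x, ((c x : ℝ) : ℂ) • S x ≤ ∑ x, ((c x : ℝ) : ℂ) • T x := by
  refine Finset.sum_le_sum fun x _ => ?_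
  rw [← sub_nonneg, ← smul_sub]
  exact s5_smul_nonneg (hc x) (sub_nonneg.2 (h x))

private theorem s5_const {ι : Type} [Fintype ι] {c : ι → ℝ} (hc : ∑ x, c x = 1)
    (T : H →L[ℂ] H) : ∑ x, ((c x : ℝ) : ℂ) • T = T := by
  rw [← Finset.sum_smul, ← Complex.ofReal_sum, hc, Complex.ofReal_one, one_smul]

private theorem s5_bounds {ι : Type} [Fintype ι] {c : ι → ℝ} (hc : ∀ x, 0 ≤ c x)
    (hc1 : ∑ x, c x = 1) {E : ι → (H →L[ℂ] H)} (h0 : ∀ x, 0 ≤ E x) (h1 : ∀ x, E x ≤ 1)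
    {δ : ℝ} (hδ1 : δ ≤ 1) :
    ((δ : ℝ) : ℂ) • (1 : H →L[ℂ] H) ≤
        ∑ x, ((c x : ℝ) : ℂ) • (E x + ((δ : ℝ) : ℂ) • (1 : H →L[ℂ] H)) ∧
      ∑ x, ((c x : ℝ) : ℂ) • (E x + ((δ : ℝ) : ℂ) • (1 : H →L[ℂ] H)) ≤
        ((2 : ℝ) : ℂ) • (1 : H →L[ℂ] H) := by
  constructor
  · calc ((δ : ℝ) : ℂ) • (1 : H →L[ℂ] H)
        = ∑ x, ((c x : ℝ) : ℂ) • (((δ : ℝ) : ℂ) • (1 : H →L[ℂ] H)) := (s5_const hc1 _).symm
      _ ≤ _ := s5_avg_le hc fun x => le_add_of_nonneg_left (h0 x)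
  · calc ∑ x, ((c x : ℝ) : ℂ) • (E x + ((δ : ℝ) : ℂ) • (1 : H →L[ℂ] H))
        ≤ ∑ x, ((c x : ℝ) : ℂ) • (((2 : ℝ) : ℂ) • (1 : H →L[ℂ] H)) := by
          refine s5_avg_le hc fun x => ?_
          have e : ((2 : ℝ) : ℂ) • (1 : H →L[ℂ] H) - (E x + ((δ : ℝ) : ℂ) • (1 : H →L[ℂ] H)) =
              (1 - E x) + (((1 - δ : ℝ) : ℝ) : ℂ) • (1 : H →L[ℂ] H) := by
            rw [Complex.ofReal_sub, sub_smul, Complex.ofReal_one, one_smul]
            rw [show ((2 : ℝ) : ℂ) = 1 + 1 by norm_num, add_smul, one_smul]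
            abel
          rw [← sub_nonneg, e]
          exact add_nonneg (sub_nonneg.2 (h1 x)) (s5_smul_nonneg (by linarith) s5_one_nonneg)
      _ = _ := s5_const hc1 _

end

section S
variable {X Y A B : Type} [Fintype X] [Fintype Y] [Fintype A] [Fintype B]
variable {H : Type} [NormedAddCommGroup H] [InnerProductSpace ℂ H] [CompleteSpace H]

/-- S5 -/
theorem hA_props [Nonempty A] (μ : X → Y → ℝ) (hμ : ∀ x y, 0 ≤ μ x y) {n : ℕ}
    (P : (Fin n → X) → (Fin n → A) → (H →L[ℂ] H)) (hP : Povm P)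
    (C : Finset (Fin n)) (κx : C → X) (κa : C → A) (δ : ℝ) (hδ : 0 ≤ δ) (hδ1 : δ ≤ 1)
    (i : Fin n) (s : Fin n → X) (t : Fin n → Y) :
    (∀ u a, 0 ≤ hA μ P C κx κa δ i s t u a) ∧
    (pw μ s t ≠ 0 → ∀ u, ((δ : ℝ) : ℂ) • (1 : H →L[ℂ] H) ≤ ∑ a, hA μ P C κx κa δ i s t u a ∧
      ∑ a, hA μ P C κx κa δ i s t u a ≤ ((2 : ℝ) : ℂ) • (1 : H →L[ℂ] H)) := by
  constructor
  · intro u a
    unfold hA
    refine Finset.sum_nonneg fun x _ => s5_smul_nonneg (kA_nonneg μ hμ i s t u x) ?_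
    exact add_nonneg (opP_nonneg P hP C κx κa i a x)
      (s5_smul_nonneg (div_nonneg hδ (Nat.cast_nonneg _)) s5_one_nonneg)
  · intro hst u
    rw [hA_sum]
    exact s5_bounds (fun x => kA_nonneg μ hμ i s t u x) (kA_sum μ hμ i s t hst u)
      (fun x => opE_nonneg P hP C κx κa x) (fun x => opE_le_one P hP C κx κa x) hδ1

/-- S5 -/
theorem hB_props [Nonempty B] (μ : X → Y → ℝ) (hμ : ∀ x y, 0 ≤ μ x y) {n : ℕ}
    (Q : (Fin n → Y) → (Fin n → B) → (H →L[ℂ] H)) (hQ : Povm Q)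
    (C : Finset (Fin n)) (κy : C → Y) (κb : C → B) (δ : ℝ) (hδ : 0 ≤ δ) (hδ1 : δ ≤ 1)
    (i : Fin n) (s : Fin n → X) (t : Fin n → Y) :
    (∀ v b, 0 ≤ hB μ Q C κy κb δ i s t v b) ∧
    (pw μ s t ≠ 0 → ∀ v, ((δ : ℝ) : ℂ) • (1 : H →L[ℂ] H) ≤ ∑ b, hB μ Q C κy κb δ i s t v b ∧
      ∑ b, hB μ Q C κy κb δ i s t v b ≤ ((2 : ℝ) : ℂ) • (1 : H →L[ℂ] H)) := by
  constructor
  · intro v b
    unfold hB
    refine Finset.sum_nonneg fun y _ => s5_smul_nonneg (kB_nonneg μ hμ i s t v y) ?_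
    exact add_nonneg (opP_nonneg Q hQ C κy κb i b y)
      (s5_smul_nonneg (div_nonneg hδ (Nat.cast_nonneg _)) s5_one_nonneg)
  · intro hst v
    rw [hB_sum]
    exact s5_bounds (fun y => kB_nonneg μ hμ i s t v y) (kB_sum μ hμ i s t hst v)
      (fun y => opE_nonneg Q hQ C κy κb y) (fun y => opE_le_one Q hQ C κy κb y) hδ1

/-- S5 -/
theorem hAB_commute (μ : X → Y → ℝ) {n : ℕ}
    (P : (Fin n → X) → (Fin n → A) → (H →L[ℂ] H)) (Q : (Fin n → Y) → (Fin n → B) → (H →L[ℂ] H))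
    (hc : ∀ x a y b, Commute (P x a) (Q y b))
    (C : Finset (Fin n)) (κx : C → X) (κa : C → A) (κy : C → Y) (κb : C → B) (δ : ℝ)
    (i : Fin n) (s : Fin n → X) (t : Fin n → Y) (u : X) (a : A) (v : Y) (b : B) :
    Commute (hA μ P C κx κa δ i s t u a) (hB μ Q C κy κb δ i s t v b) := by
  unfold hA hB
  refine Commute.sum_left _ _ _ fun x _ => Commute.sum_right _ _ _ fun y _ => ?_
  refine Commute.smul_left (Commute.smul_right ?_ _) _
  refine Commute.add_left (Commute.add_right ?_ ?_) (Commute.add_right ?_ ?_)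
  · exact opP_commute P Q hc C κx κa κy κb i a b x y
  · exact (Commute.one_right _).smul_right _
  · exact (Commute.one_left _).smul_left _
  · exact ((Commute.one_left _).smul_left _)

end S

end Pool.Agent.H500R2.PR.TS5

namespace Pool.Agent.H500R2.PR

export TS5 (hA_props hB_props hAB_commute)

end Pool.Agent.H500R2.PR
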