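import Pool.Agent.H500R2.PR.Basic
import Pool.Agent.H500R2.PRF.K5
import Pool.Agent.H500R2.PR.S2
import Pool.Agent.H500R2.PR.S0
import Pool.Agent.H500R2.PR.S3
import Pool.Agent.H500R2.PR.K9
import Pool.Agent.H500R2.PR.K1
set_option autoImplicit false
open scoped InnerProductSpace
namespace Pool.Agent.H500R2.PR.TS6

open Pool.Agent.H500R2.PR

section
variable {H : Type} [NormedAddCommGroup H] [InnerProductSpace ℂ H] [CompleteSpace H]

private lemma S6_expand (ψ : H) (hψ : ‖ψ‖ = 1) (p q : H →L[ℂ] H) (r r' : ℝ) :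
    ev ψ ((p + ((r : ℝ) : ℂ) • (1 : H →L[ℂ] H)) * (q + ((r' : ℝ) : ℂ) • (1 : H →L[ℂ] H))) =
      ev ψ (p * q) + r' * ev ψ p + r * ev ψ q + r * r' := by
  have h1 : (p + ((r : ℝ) : ℂ) • (1 : H →L[ℂ] H)) * (q + ((r' : ℝ) : ℂ) • (1 : H →L[ℂ] H)) =
      p * q + ((r' : ℝ) : ℂ) • p + ((r : ℝ) : ℂ) • q + ((r * r' : ℝ) : ℂ) • (1 : H →L[ℂ] H) := by
    rw [add_mul, mul_add, mul_add]
    simp only [mul_smul_comm, smul_mul_assoc, mul_one, one_mul, smul_smul]
    push_cast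
    rw [mul_comm (r : ℂ) (r' : ℂ)]
    abel
  rw [h1, ev_add, ev_add, ev_add, ev_smul, ev_smul, ev_smul, ev_one, hψ]
  ring

private lemma S6_pt {A B : Type} [Fintype A] [Fintype B] [Nonempty A] [Nonempty B]
    (ψ : H) (hψ : ‖ψ‖ = 1) (p : A → (H →L[ℂ] H)) (q : B → (H →L[ℂ] H))
    (hp : ∀ a, 0 ≤ p a) (hq : ∀ b, 0 ≤ q b) (hc : ∀ a b, Commute (p a) (q b))
    (hp1 : ∑ a, p a ≤ 1) (hq1 : ∑ b, q b ≤ 1) (W : A → B → Bool) (G : A → B → ℝ)
    (hG0 : ∀ a b, 0 ≤ G a b) (hG1 : ∀ a b, G a b ≤ 1) (hGW : ∀ a b, W a b = true → G a b = 0)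
    (δ : ℝ) (hδ : 0 ≤ δ) (hδ1 : δ ≤ 1) :
    ∑ a, ∑ b, G a b * ev ψ ((p a + ((δ / Fintype.card A : ℝ) : ℂ) • (1 : H →L[ℂ] H)) *
        (q b + ((δ / Fintype.card B : ℝ) : ℂ) • (1 : H →L[ℂ] H))) ≤
      (∑ a, ∑ b, (if W a b = true then 0 else ev ψ (p a * q b))) + 3 * δ := by
  have hA : (0 : ℝ) < Fintype.card A := by exact_mod_cast Fintype.card_pos
  have hB : (0 : ℝ) < Fintype.card B := by exact_mod_cast Fintype.card_pos
  have hrA : 0 ≤ δ / Fintype.card A := by positivity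
  have hrB : 0 ≤ δ / Fintype.card B := by positivity
  have term : ∀ a b, G a b * ev ψ ((p a + ((δ / Fintype.card A : ℝ) : ℂ) • (1 : H →L[ℂ] H)) *
        (q b + ((δ / Fintype.card B : ℝ) : ℂ) • (1 : H →L[ℂ] H))) ≤
      (if W a b = true then 0 else ev ψ (p a * q b)) +
        ((δ / Fintype.card B) * ev ψ (p a) + (δ / Fintype.card A) * ev ψ (q b) +
          (δ / Fintype.card A) * (δ / Fintype.card B)) := by
    intro a b
    have e1 : 0 ≤ ev ψ (p a * q b) := ev_mul_nonneg ψ _ _ (hp a) (hq b) (hc a b)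
    have e2 : 0 ≤ ev ψ (p a) := ev_nonneg ψ _ (hp a)
    have e3 : 0 ≤ ev ψ (q b) := ev_nonneg ψ _ (hq b)
    have e4 : 0 ≤ (δ / Fintype.card B) * ev ψ (p a) + (δ / Fintype.card A) * ev ψ (q b) +
          (δ / Fintype.card A) * (δ / Fintype.card B) := by positivity
    by_cases hW : W a b = true
    · rw [hGW a b hW, if_pos hW, zero_mul, zero_add]
      exact e4
    · rw [if_neg hW, S6_expand ψ hψ]
      have e5 : 0 ≤ ev ψ (p a * q b) + (δ / Fintype.card B) * ev ψ (p a) +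
          (δ / Fintype.card A) * ev ψ (q b) + (δ / Fintype.card A) * (δ / Fintype.card B) := by
        positivity
      have := mul_le_mul_of_nonneg_right (hG1 a b) e5
      linarith
  have s1 : ∑ a, ev ψ (p a) ≤ 1 := by
    rw [← ev_sum]
    have := ev_mono ψ _ _ hp1
    rwa [ev_one, hψ, one_pow] at this
  have s2 : ∑ b, ev ψ (q b) ≤ 1 := by
    rw [← ev_sum]
    have := ev_mono ψ _ _ hq1
    rwa [ev_one, hψ, one_pow] at this
  calc _ ≤ ∑ a, ∑ b, ((if W a b = true then 0 else ev ψ (p a * q b)) +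
        ((δ / Fintype.card B) * ev ψ (p a) + (δ / Fintype.card A) * ev ψ (q b) +
          (δ / Fintype.card A) * (δ / Fintype.card B))) :=
        Finset.sum_le_sum fun a _ => Finset.sum_le_sum fun b _ => term a b
    _ = (∑ a, ∑ b, (if W a b = true then 0 else ev ψ (p a * q b))) +
        (δ * ∑ a, ev ψ (p a) + δ * ∑ b, ev ψ (q b) + δ * δ) := by
        simp only [Finset.sum_add_distrib]
        congr 1
        have t1 : ∑ a : A, ∑ _b : B, (δ / Fintype.card B) * ev ψ (p a) =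
            δ * ∑ a, ev ψ (p a) := by
          rw [Finset.mul_sum]
          refine Finset.sum_congr rfl fun a _ => ?_
          rw [Finset.sum_const, Finset.card_univ, nsmul_eq_mul]
          field_simp
        have t2 : ∑ _a : A, ∑ b : B, (δ / Fintype.card A) * ev ψ (q b) =
            δ * ∑ b, ev ψ (q b) := by
          rw [Finset.sum_const, Finset.card_univ, nsmul_eq_mul, ← Finset.mul_sum]
          field_simp
        have t3 : ∑ _a : A, ∑ _b : B, (δ / Fintype.card A) * (δ / Fintype.card B) =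
            δ * δ := by
          rw [Finset.sum_const, Finset.card_univ, nsmul_eq_mul, Finset.sum_const,
            Finset.card_univ, nsmul_eq_mul]
          field_simp
        rw [t1, t2, t3]
    _ ≤ (∑ a, ∑ b, (if W a b = true then 0 else ev ψ (p a * q b))) + 3 * δ := by
        have u1 : δ * ∑ a, ev ψ (p a) ≤ δ := by
          calc _ ≤ δ * 1 := mul_le_mul_of_nonneg_left s1 hδ
            _ = δ := mul_one _
        have u2 : δ * ∑ b, ev ψ (q b) ≤ δ := by
          calc _ ≤ δ * 1 := mul_le_mul_of_nonneg_left s2 hδ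
            _ = δ := mul_one _
        have u3 : δ * δ ≤ δ := by
          calc _ ≤ δ * 1 := mul_le_mul_of_nonneg_left hδ1 hδ
            _ = δ := mul_one _
        linarith
end

section S
variable {X Y A B : Type} [Fintype X] [Fintype Y] [Fintype A] [Fintype B]
variable {H : Type} [NormedAddCommGroup H] [InnerProductSpace ℂ H] [CompleteSpace H]

private lemma S6_pw_nonneg (μ : X → Y → ℝ) (hμ : ∀ x y, 0 ≤ μ x y) {n : ℕ} (x : Fin n → X)
    (y : Fin n → Y) : 0 ≤ pw μ x y := Finset.prod_nonneg fun j _ => hμ _ _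

open Classical in
private lemma S6_alg (μ : X → Y → ℝ) (V : X → Y → A → B → Bool) (SX : Finset X) (SY : Finset Y)
    (Z : A → B → X → Y → ℝ) :
    ∑ x, ∑ y, (if x ∈ SX ∧ y ∈ SY then μ x y else 0) * ∑ a, ∑ b,
      (if V x y a b = true then 0 else Z a b x y) =
    ∑ a, ∑ b, ∑ u, ∑ v, μ u v *
        ((if (u ∈ SX ∧ v ∈ SY) ∧ ¬ V u v a b = true then 1 else 0) * Z a b u v) := by
  have : ∀ F : A → B → X → Y → ℝ, ∑ a, ∑ b, ∑ u, ∑ v, F a b u v =
      ∑ u, ∑ v, ∑ a, ∑ b, F a b u v := by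
    intro F
    calc ∑ a, ∑ b, ∑ u, ∑ v, F a b u v = ∑ a, ∑ u, ∑ b, ∑ v, F a b u v :=
          Finset.sum_congr rfl fun a _ => Finset.sum_comm
      _ = ∑ u, ∑ a, ∑ b, ∑ v, F a b u v := Finset.sum_comm
      _ = ∑ u, ∑ a, ∑ v, ∑ b, F a b u v :=
          Finset.sum_congr rfl fun u _ => Finset.sum_congr rfl fun a _ => Finset.sum_comm
      _ = ∑ u, ∑ v, ∑ a, ∑ b, F a b u v := Finset.sum_congr rfl fun u _ => Finset.sum_comm
  rw [this]
  refine Finset.sum_congr rfl fun u _ => Finset.sum_congr rfl fun v _ => ?_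
  rw [Finset.mul_sum]
  refine Finset.sum_congr rfl fun a _ => ?_
  rw [Finset.mul_sum]
  refine Finset.sum_congr rfl fun b _ => ?_
  by_cases h1 : u ∈ SX ∧ v ∈ SY
  · by_cases h2 : V u v a b = true
    · simp [h1, h2]
    · simp [h1, h2]
  · simp [h1]

open Classical in
private lemma S6_swap [Nonempty A] [Nonempty B] (μ : X → Y → ℝ) (hμ : ∀ x y, 0 ≤ μ x y)
    (hμ1 : ∑ x, ∑ y, μ x y = 1)
    (V : X → Y → A → B → Bool) (SX : Finset X) (SY : Finset Y) {n : ℕ}
    (P : (Fin n → X) → (Fin n → A) → (H →L[ℂ] H))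
    (Q : (Fin n → Y) → (Fin n → B) → (H →L[ℂ] H)) (ψ : H) (C : Finset (Fin n))
    (κx : C → X) (κy : C → Y) (κa : C → A) (κb : C → B) (i : Fin n) (δ : ℝ) :
    ∑ s : Fin n → X, ∑ t : Fin n → Y, pw μ s t *
          lose (fun x y => if x ∈ SX ∧ y ∈ SY then μ x y else 0) V
            (hA μ P C κx κa δ i s t) (hB μ Q C κy κb δ i s t) ψ =
      ∑ x : Fin n → X, ∑ y : Fin n → Y, pw μ x y * ∑ a, ∑ b,
        (if (x i ∈ SX ∧ y i ∈ SY) ∧ ¬ V (x i) (y i) a b = true then 1 else 0) *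
        ev ψ ((opP P C κx κa i a x + ((δ / Fintype.card A : ℝ) : ℂ) • (1 : H →L[ℂ] H)) *
          (opP Q C κy κb i b y + ((δ / Fintype.card B : ℝ) : ℂ) • (1 : H →L[ℂ] H))) := by
  have e1 : ∀ (s : Fin n → X) (t : Fin n → Y), pw μ s t *
          lose (fun x y => if x ∈ SX ∧ y ∈ SY then μ x y else 0) V
            (hA μ P C κx κa δ i s t) (hB μ Q C κy κb δ i s t) ψ =
      ∑ a, ∑ b, pw μ s t * (∑ u, ∑ v, μ u v *
        ((if (u ∈ SX ∧ v ∈ SY) ∧ ¬ V u v a b = true then 1 else 0) *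
          ev ψ ((∑ x, ((kA μ i s t u x : ℝ) : ℂ) •
            (opP P C κx κa i a x + ((δ / Fintype.card A : ℝ) : ℂ) • (1 : H →L[ℂ] H))) *
            (∑ y, ((kB μ i s t v y : ℝ) : ℂ) •
            (opP Q C κy κb i b y + ((δ / Fintype.card B : ℝ) : ℂ) • (1 : H →L[ℂ] H)))))) := by
    intro s t
    unfold lose
    simp only [← Finset.mul_sum]
    congr 1
    exact S6_alg μ V SX SY
      (fun a b u v => ev ψ (hA μ P C κx κa δ i s t u a * hB μ Q C κy κb δ i s t v b))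
  calc _ = ∑ s : Fin n → X, ∑ t : Fin n → Y, ∑ a, ∑ b, pw μ s t * (∑ u, ∑ v, μ u v *
        ((if (u ∈ SX ∧ v ∈ SY) ∧ ¬ V u v a b = true then 1 else 0) *
          ev ψ ((∑ x, ((kA μ i s t u x : ℝ) : ℂ) •
            (opP P C κx κa i a x + ((δ / Fintype.card A : ℝ) : ℂ) • (1 : H →L[ℂ] H))) *
            (∑ y, ((kB μ i s t v y : ℝ) : ℂ) •
            (opP Q C κy κb i b y + ((δ / Fintype.card B : ℝ) : ℂ) • (1 : H →L[ℂ] H)))))) :=
        Finset.sum_congr rfl fun s _ => Finset.sum_congr rfl fun t _ => e1 s t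
    _ = ∑ a, ∑ b, ∑ s : Fin n → X, ∑ t : Fin n → Y, pw μ s t * (∑ u, ∑ v, μ u v *
        ((if (u ∈ SX ∧ v ∈ SY) ∧ ¬ V u v a b = true then 1 else 0) *
          ev ψ ((∑ x, ((kA μ i s t u x : ℝ) : ℂ) •
            (opP P C κx κa i a x + ((δ / Fintype.card A : ℝ) : ℂ) • (1 : H →L[ℂ] H))) *
            (∑ y, ((kB μ i s t v y : ℝ) : ℂ) •
            (opP Q C κy κb i b y + ((δ / Fintype.card B : ℝ) : ℂ) • (1 : H →L[ℂ] H)))))) := by
        have sw : ∀ F : (Fin n → X) → (Fin n → Y) → A → B → ℝ,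
            ∑ s, ∑ t, ∑ a, ∑ b, F s t a b = ∑ a, ∑ b, ∑ s, ∑ t, F s t a b := by
          intro F
          calc ∑ s, ∑ t, ∑ a, ∑ b, F s t a b = ∑ s, ∑ a, ∑ t, ∑ b, F s t a b :=
                Finset.sum_congr rfl fun s _ => Finset.sum_comm
            _ = ∑ a, ∑ s, ∑ t, ∑ b, F s t a b := Finset.sum_comm
            _ = ∑ a, ∑ s, ∑ b, ∑ t, F s t a b :=
                Finset.sum_congr rfl fun u _ => Finset.sum_congr rfl fun a _ => Finset.sum_comm
            _ = ∑ a, ∑ b, ∑ s, ∑ t, F s t a b := Finset.sum_congr rfl fun u _ => Finset.sum_comm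
        exact sw _
    _ = ∑ a, ∑ b, ∑ x : Fin n → X, ∑ y : Fin n → Y, pw μ x y *
        ((if (x i ∈ SX ∧ y i ∈ SY) ∧ ¬ V (x i) (y i) a b = true then 1 else 0) *
        ev ψ ((opP P C κx κa i a x + ((δ / Fintype.card A : ℝ) : ℂ) • (1 : H →L[ℂ] H)) *
          (opP Q C κy κb i b y + ((δ / Fintype.card B : ℝ) : ℂ) • (1 : H →L[ℂ] H)))) := by
        refine Finset.sum_congr rfl fun a _ => Finset.sum_congr rfl fun b _ => ?_
        exact bil μ hμ hμ1 n i
          (fun u v => if (u ∈ SX ∧ v ∈ SY) ∧ ¬ V u v a b = true then 1 else 0) ψ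
          (fun x => opP P C κx κa i a x + ((δ / Fintype.card A : ℝ) : ℂ) • (1 : H →L[ℂ] H))
          (fun y => opP Q C κy κb i b y + ((δ / Fintype.card B : ℝ) : ℂ) • (1 : H →L[ℂ] H))
    _ = _ := by
        have sw : ∀ F : A → B → (Fin n → X) → (Fin n → Y) → ℝ,
            ∑ a, ∑ b, ∑ s, ∑ t, F a b s t = ∑ s, ∑ t, ∑ a, ∑ b, F a b s t := by
          intro F
          calc ∑ a, ∑ b, ∑ s, ∑ t, F a b s t = ∑ a, ∑ s, ∑ b, ∑ t, F a b s t :=
                Finset.sum_congr rfl fun s _ => Finset.sum_comm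
            _ = ∑ s, ∑ a, ∑ b, ∑ t, F a b s t := Finset.sum_comm
            _ = ∑ s, ∑ a, ∑ t, ∑ b, F a b s t :=
                Finset.sum_congr rfl fun u _ => Finset.sum_congr rfl fun a _ => Finset.sum_comm
            _ = ∑ s, ∑ t, ∑ a, ∑ b, F a b s t := Finset.sum_congr rfl fun u _ => Finset.sum_comm
        rw [sw]
        refine Finset.sum_congr rfl fun x _ => Finset.sum_congr rfl fun y _ => ?_
        simp only [Finset.mul_sum]

open Classical in
/-- S6: the sum of the losing terms at coordinate `i` (uses `bil`, `sum_opP`, S0) -/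
theorem L_sum [Nonempty A] [Nonempty B] (μ : X → Y → ℝ) (hμ : ∀ x y, 0 ≤ μ x y)
    (hμ1 : ∑ x, ∑ y, μ x y = 1)
    (V : X → Y → A → B → Bool) (SX : Finset X) (SY : Finset Y) {n : ℕ}
    (P : (Fin n → X) → (Fin n → A) → (H →L[ℂ] H))
    (Q : (Fin n → Y) → (Fin n → B) → (H →L[ℂ] H)) (hP : Povm P) (hQ : Povm Q)
    (hc : ∀ x a y b, Commute (P x a) (Q y b)) (ψ : H) (hψ : ‖ψ‖ = 1) (C : Finset (Fin n))
    (i : Fin n) (δ : ℝ) (hδ : 0 ≤ δ) (hδ1 : δ ≤ 1) :
    (∑ κ : (C → X) × (C → Y) × (C → A) × (C → B),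
      if (∀ j : C, V (κ.1 j) (κ.2.1 j) (κ.2.2.1 j) (κ.2.2.2 j) = true) then
        ∑ s : Fin n → X, ∑ t : Fin n → Y, pw μ s t *
          lose (fun x y => if x ∈ SX ∧ y ∈ SY then μ x y else 0) V
            (hA μ P C κ.1 κ.2.2.1 δ i s t) (hB μ Q C κ.2.1 κ.2.2.2 δ i s t) ψ else 0) ≤
      Wn μ V P Q ψ C - Wn μ V P Q ψ (insert i C) +
        3 * δ * ((Fintype.card X * Fintype.card Y * Fintype.card A * Fintype.card B : ℕ) : ℝ) ^ C.card := by
  have hpw := pw_sum μ n hμ1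
  -- bound for a fixed `κ`
  have key : ∀ κ : (C → X) × (C → Y) × (C → A) × (C → B),
      (if (∀ j : C, V (κ.1 j) (κ.2.1 j) (κ.2.2.1 j) (κ.2.2.2 j) = true) then
        ∑ s : Fin n → X, ∑ t : Fin n → Y, pw μ s t *
          lose (fun x y => if x ∈ SX ∧ y ∈ SY then μ x y else 0) V
            (hA μ P C κ.1 κ.2.2.1 δ i s t) (hB μ Q C κ.2.1 κ.2.2.2 δ i s t) ψ else 0) ≤
      (∑ x : Fin n → X, ∑ y : Fin n → Y, pw μ x y *
        (if (∀ j : C, V (κ.1 j) (κ.2.1 j) (κ.2.2.1 j) (κ.2.2.2 j) = true) then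
          ∑ a, ∑ b, (if V (x i) (y i) a b = true then 0 else
          ev ψ (opP P C κ.1 κ.2.2.1 i a x * opP Q C κ.2.1 κ.2.2.2 i b y)) else 0)) + 3 * δ := by
    intro κ
    by_cases hw : ∀ j : C, V (κ.1 j) (κ.2.1 j) (κ.2.2.1 j) (κ.2.2.2 j) = true
    · simp only [if_pos hw]
      rw [S6_swap μ hμ hμ1 V SX SY P Q ψ C κ.1 κ.2.1 κ.2.2.1 κ.2.2.2 i δ]
      have h3 : 3 * δ = ∑ x : Fin n → X, ∑ y : Fin n → Y, pw μ x y * (3 * δ) := by
        simp only [← Finset.sum_mul]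
        rw [hpw, one_mul]
      rw [h3, ← Finset.sum_add_distrib]
      refine Finset.sum_le_sum fun x _ => ?_
      rw [← Finset.sum_add_distrib]
      refine Finset.sum_le_sum fun y _ => ?_
      rw [← mul_add]
      refine mul_le_mul_of_nonneg_left ?_ (S6_pw_nonneg μ hμ x y)
      refine S6_pt ψ hψ (fun a => opP P C κ.1 κ.2.2.1 i a x) (fun b => opP Q C κ.2.1 κ.2.2.2 i b y)
        (fun a => opP_nonneg P hP C _ _ i a x) (fun b => opP_nonneg Q hQ C _ _ i b y)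
        (fun a b => opP_commute P Q hc C _ _ _ _ i a b x y) ?_ ?_
        (fun a b => V (x i) (y i) a b)
        (fun a b => if (x i ∈ SX ∧ y i ∈ SY) ∧ ¬ V (x i) (y i) a b = true then 1 else 0)
        ?_ ?_ ?_ δ hδ hδ1
      · rw [opP_sum]; exact opE_le_one P hP C _ _ x
      · rw [opP_sum]; exact opE_le_one Q hQ C _ _ y
      · intro a b; split_ifs <;> norm_num
      · intro a b; split_ifs <;> norm_num
      · intro a b h; rw [if_neg]; exact fun h' => h'.2 h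
    · simp only [if_neg hw, mul_zero, Finset.sum_const_zero]
      linarith
  have hcard : (Fintype.card ((C → X) × (C → Y) × (C → A) × (C → B)) : ℝ) =
      ((Fintype.card X * Fintype.card Y * Fintype.card A * Fintype.card B : ℕ) : ℝ) ^ C.card := by
    rw [Fintype.card_prod, Fintype.card_prod, Fintype.card_prod, Fintype.card_fun,
      Fintype.card_fun, Fintype.card_fun, Fintype.card_fun, Fintype.card_coe]
    push_cast
    rw [mul_pow, mul_pow, mul_pow]
    ring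
  refine (Finset.sum_le_sum fun κ _ => key κ).trans ?_
  rw [Finset.sum_add_distrib, Finset.sum_const, Finset.card_univ, nsmul_eq_mul, hcard]
  have main : ∑ κ : (C → X) × (C → Y) × (C → A) × (C → B),
      (∑ x : Fin n → X, ∑ y : Fin n → Y, pw μ x y *
        (if (∀ j : C, V (κ.1 j) (κ.2.1 j) (κ.2.2.1 j) (κ.2.2.2 j) = true) then
          ∑ a, ∑ b, (if V (x i) (y i) a b = true then 0 else
          ev ψ (opP P C κ.1 κ.2.2.1 i a x * opP Q C κ.2.1 κ.2.2.2 i b y)) else 0)) =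
      Wn μ V P Q ψ C - Wn μ V P Q ψ (insert i C) := by
    rw [Finset.sum_comm]
    unfold Wn
    rw [← Finset.sum_sub_distrib]
    refine Finset.sum_congr rfl fun x _ => ?_
    rw [Finset.sum_comm, ← Finset.sum_sub_distrib]
    refine Finset.sum_congr rfl fun y _ => ?_
    rw [← Finset.mul_sum, ← mul_sub]
    congr 1
    exact sum_opP V P Q ψ C i x y
  rw [main]
  linarith

end S

end Pool.Agent.H500R2.PR.TS6

namespace Pool.Agent.H500R2.PR

export TS6 (L_sum)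

end Pool.Agent.H500R2.PR
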