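import Pool.Agent.H500R2.PR.Basic
import Pool.Agent.H500R2.PRF.K5
import Pool.Agent.H500R2.PR.S4
import Pool.Agent.H500R2.PR.S1
import Pool.Agent.H500R2.PR.K8
import Pool.Agent.H500R2.PR.S0
import Pool.Agent.H500R2.PR.S3
import Pool.Agent.H500R2.PR.K9
import Pool.Agent.H500R2.PR.K1
set_option autoImplicit false
open scoped InnerProductSpace
namespace Pool.Agent.H500R2.PR.TS7
open Pool.Agent.H500R2.PR

section
variable {H : Type} [NormedAddCommGroup H] [InnerProductSpace ℂ H] [CompleteSpace H]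

/-- adding `δ` to both operators only increases the expectation of the product -/
theorem ev_shift_S7 (ψ : H) (S T : H →L[ℂ] H) (hS : 0 ≤ S) (hT : 0 ≤ T) (δ : ℝ) (hδ : 0 ≤ δ) :
    ev ψ (S * T) ≤ ev ψ ((S + ((δ : ℝ) : ℂ) • (1 : H →L[ℂ] H)) *
      (T + ((δ : ℝ) : ℂ) • (1 : H →L[ℂ] H))) := by
  have e : (S + ((δ : ℝ) : ℂ) • (1 : H →L[ℂ] H)) * (T + ((δ : ℝ) : ℂ) • (1 : H →L[ℂ] H)) =
      S * T + (((δ : ℝ) : ℂ) • S + (((δ : ℝ) : ℂ) • T +
        ((δ : ℝ) : ℂ) • (((δ : ℝ) : ℂ) • (1 : H →L[ℂ] H)))) := by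
    simp only [add_mul, mul_add, smul_mul_assoc, mul_smul_comm, one_mul, mul_one, smul_add]
    abel
  rw [e, ev_add, ev_add, ev_add, ev_smul, ev_smul, ev_smul, ev_smul, ev_one]
  have h1 : 0 ≤ δ * ev ψ S := mul_nonneg hδ (ev_nonneg ψ S hS)
  have h2 : 0 ≤ δ * ev ψ T := mul_nonneg hδ (ev_nonneg ψ T hT)
  have h3 : 0 ≤ δ * (δ * ‖ψ‖ ^ 2) := mul_nonneg hδ (mul_nonneg hδ (sq_nonneg _))
  linarith

end

section S
variable {X Y A B : Type} [Fintype X] [Fintype Y] [Fintype A] [Fintype B]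
variable {H : Type} [NormedAddCommGroup H] [InnerProductSpace ℂ H] [CompleteSpace H]

omit [Fintype X] [Fintype Y] in
theorem pw_nonneg_S7 (μ : X → Y → ℝ) (hμ : ∀ x y, 0 ≤ μ x y) {n : ℕ} (x : Fin n → X)
    (y : Fin n → Y) : 0 ≤ pw μ x y := Finset.prod_nonneg fun _ _ => hμ _ _

open Classical in
/-- one coordinate -/
theorem one_coord_S7 [Nonempty A] [Nonempty B] (μ : X → Y → ℝ) (hμ : ∀ x y, 0 ≤ μ x y)
    (hμ1 : ∑ x, ∑ y, μ x y = 1)
    (V : X → Y → A → B → Bool) (g : X → Y → ℝ) (hg : ∀ u v, 0 ≤ g u v) {n : ℕ}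
    (P : (Fin n → X) → (Fin n → A) → (H →L[ℂ] H))
    (Q : (Fin n → Y) → (Fin n → B) → (H →L[ℂ] H)) (hP : Povm P) (hQ : Povm Q)
    (ψ : H) (C : Finset (Fin n))
    (δ : ℝ) (hδ : 0 ≤ δ) (i : Fin n) :
    ∑ x : Fin n → X, ∑ y : Fin n → Y, pw μ x y * (g (x i) (y i) * wn V P Q ψ C x y) ≤
    ∑ κ : (C → X) × (C → Y) × (C → A) × (C → B),
      if (∀ j : C, V (κ.1 j) (κ.2.1 j) (κ.2.2.1 j) (κ.2.2.2 j) = true) then
        ∑ s : Fin n → X, ∑ t : Fin n → Y, pw μ s t *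
          ∑ u, ∑ v, μ u v * (g u v *
          ev ψ ((∑ a, hA μ P C κ.1 κ.2.2.1 δ i s t u a) * (∑ b, hB μ Q C κ.2.1 κ.2.2.2 δ i s t v b)))
        else 0 := by
  have key : ∀ κ : (C → X) × (C → Y) × (C → A) × (C → B),
      (if (∀ j : C, V (κ.1 j) (κ.2.1 j) (κ.2.2.1 j) (κ.2.2.2 j) = true) then
        ∑ x : Fin n → X, ∑ y : Fin n → Y, pw μ x y * (g (x i) (y i) *
          ev ψ (opE P C κ.1 κ.2.2.1 x * opE Q C κ.2.1 κ.2.2.2 y)) else 0) ≤
      (if (∀ j : C, V (κ.1 j) (κ.2.1 j) (κ.2.2.1 j) (κ.2.2.2 j) = true) then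
        ∑ s : Fin n → X, ∑ t : Fin n → Y, pw μ s t *
          ∑ u, ∑ v, μ u v * (g u v *
          ev ψ ((∑ a, hA μ P C κ.1 κ.2.2.1 δ i s t u a) * (∑ b, hB μ Q C κ.2.1 κ.2.2.2 δ i s t v b)))
        else 0) := by
    intro κ
    split_ifs with hw
    · simp only [hA_sum, hB_sum]
      rw [bil μ hμ hμ1 n i g ψ
        (fun x => opE P C κ.1 κ.2.2.1 x + ((δ : ℝ) : ℂ) • (1 : H →L[ℂ] H))
        (fun y => opE Q C κ.2.1 κ.2.2.2 y + ((δ : ℝ) : ℂ) • (1 : H →L[ℂ] H))]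
      refine Finset.sum_le_sum fun x _ => Finset.sum_le_sum fun y _ => ?_
      refine mul_le_mul_of_nonneg_left ?_ (pw_nonneg_S7 μ hμ x y)
      refine mul_le_mul_of_nonneg_left ?_ (hg _ _)
      exact ev_shift_S7 ψ _ _ (opE_nonneg P hP C _ _ x) (opE_nonneg Q hQ C _ _ y) δ hδ
    · exact le_refl _
  refine le_trans (le_of_eq ?_) (Finset.sum_le_sum fun κ _ => key κ)
  symm
  have e1 : ∀ κ : (C → X) × (C → Y) × (C → A) × (C → B),
      (if (∀ j : C, V (κ.1 j) (κ.2.1 j) (κ.2.2.1 j) (κ.2.2.2 j) = true) then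
        ∑ x : Fin n → X, ∑ y : Fin n → Y, pw μ x y * (g (x i) (y i) *
          ev ψ (opE P C κ.1 κ.2.2.1 x * opE Q C κ.2.1 κ.2.2.2 y)) else 0) =
      ∑ x : Fin n → X, ∑ y : Fin n → Y, pw μ x y * (g (x i) (y i) *
        (if (∀ j : C, V (κ.1 j) (κ.2.1 j) (κ.2.2.1 j) (κ.2.2.2 j) = true) then
          ev ψ (opE P C κ.1 κ.2.2.1 x * opE Q C κ.2.1 κ.2.2.2 y) else 0)) := by
    intro κ
    split_ifs with hw
    · rfl
    · simp
  rw [Finset.sum_congr rfl (fun κ (_ : κ ∈ Finset.univ) => e1 κ)]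
  rw [Finset.sum_comm]
  refine Finset.sum_congr rfl fun x _ => ?_
  rw [Finset.sum_comm]
  refine Finset.sum_congr rfl fun y _ => ?_
  rw [← Finset.mul_sum, ← Finset.mul_sum, sum_opE]

open Classical in
/-- S7: the sum of the total weights (uses `bil`, `hA_sum`, `sum_opE`, `conc`, S0, S3) -/
theorem T_sum [Nonempty A] [Nonempty B] (μ : X → Y → ℝ) (hμ : ∀ x y, 0 ≤ μ x y)
    (hμ1 : ∑ x, ∑ y, μ x y = 1)
    (V : X → Y → A → B → Bool) (SX : Finset X) (SY : Finset Y) {n : ℕ}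
    (P : (Fin n → X) → (Fin n → A) → (H →L[ℂ] H))
    (Q : (Fin n → Y) → (Fin n → B) → (H →L[ℂ] H)) (hP : Povm P) (hQ : Povm Q)
    (hc : ∀ x a y b, Commute (P x a) (Q y b)) (ψ : H) (hψ : ‖ψ‖ = 1) (C : Finset (Fin n))
    (δ : ℝ) (hδ : 0 ≤ δ) :
    (∑ u, ∑ v, μ u v * (if u ∈ SX ∧ v ∈ SY then 1 else 0)) * ((n : ℝ) - C.card) *
        Wn μ V P Q ψ C - Real.sqrt n ≤
    ∑ i ∈ Cᶜ, ∑ κ : (C → X) × (C → Y) × (C → A) × (C → B),
      if (∀ j : C, V (κ.1 j) (κ.2.1 j) (κ.2.2.1 j) (κ.2.2.2 j) = true) then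
        ∑ s : Fin n → X, ∑ t : Fin n → Y, pw μ s t *
          ∑ u, ∑ v, μ u v * ((if u ∈ SX ∧ v ∈ SY then 1 else 0) *
          ev ψ ((∑ a, hA μ P C κ.1 κ.2.2.1 δ i s t u a) * (∑ b, hB μ Q C κ.2.1 κ.2.2.2 δ i s t v b)))
        else 0 := by
  set g : X → Y → ℝ := fun u v => if u ∈ SX ∧ v ∈ SY then 1 else 0 with hgdef
  have hg0 : ∀ u v, 0 ≤ g u v := by
    intro u v
    simp only [hgdef]
    split_ifs <;> norm_num
  have hg1 : ∀ u v, g u v ≤ 1 := by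
    intro u v
    simp only [hgdef]
    split_ifs <;> norm_num
  set q : ℝ := ∑ u, ∑ v, μ u v * g u v with hq
  have hcard : ((Cᶜ : Finset (Fin n)).card : ℝ) = (n : ℝ) - C.card := by
    rw [Finset.card_compl, Fintype.card_fin, Nat.cast_sub]
    have := Finset.card_le_univ C
    rwa [Fintype.card_fin] at this
  have hconc := conc μ hμ hμ1 n g hg0 hg1 (Cᶜ : Finset (Fin n))
  rw [hcard] at hconc
  have h1 := Finset.sum_le_sum fun (i : Fin n) (_ : i ∈ (Cᶜ : Finset (Fin n))) =>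
    one_coord_S7 μ hμ hμ1 V g hg0 P Q hP hQ ψ C δ hδ i
  refine le_trans ?_ h1
  have e2 : ∑ i ∈ (Cᶜ : Finset (Fin n)), ∑ x : Fin n → X, ∑ y : Fin n → Y,
      pw μ x y * (g (x i) (y i) * wn V P Q ψ C x y) =
      ∑ x : Fin n → X, ∑ y : Fin n → Y,
        pw μ x y * ((∑ i ∈ (Cᶜ : Finset (Fin n)), g (x i) (y i)) * wn V P Q ψ C x y) := by
    rw [Finset.sum_comm]
    refine Finset.sum_congr rfl fun x _ => ?_
    rw [Finset.sum_comm]
    refine Finset.sum_congr rfl fun y _ => ?_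
    rw [← Finset.mul_sum, Finset.sum_mul]
  rw [e2]
  have h3 : ∀ (x : Fin n → X) (y : Fin n → Y),
      q * ((n : ℝ) - C.card) * (pw μ x y * wn V P Q ψ C x y) -
        pw μ x y * |∑ i ∈ (Cᶜ : Finset (Fin n)), g (x i) (y i) - ((n : ℝ) - C.card) * q| ≤
      pw μ x y * ((∑ i ∈ (Cᶜ : Finset (Fin n)), g (x i) (y i)) * wn V P Q ψ C x y) := by
    intro x y
    have hp := pw_nonneg_S7 μ hμ x y
    have hw0 := wn_nonneg V P Q hP hQ hc ψ C x y
    have hw1 := wn_le_one V P Q hP hQ hc ψ hψ C x y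
    set w := wn V P Q ψ C x y
    set N := ∑ i ∈ (Cᶜ : Finset (Fin n)), g (x i) (y i)
    set c := (n : ℝ) - C.card
    have h4 : -|N - c * q| ≤ (N - c * q) * w := by
      have h5 : |(N - c * q) * w| ≤ |N - c * q| := by
        rw [abs_mul, abs_of_nonneg hw0]
        exact mul_le_of_le_one_right (abs_nonneg _) hw1
      exact le_trans (neg_le_neg h5) (neg_abs_le _)
    have h6 : pw μ x y * (-|N - c * q|) ≤ pw μ x y * ((N - c * q) * w) :=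
      mul_le_mul_of_nonneg_left h4 hp
    linarith
  have h7 := Finset.sum_le_sum fun (x : Fin n → X) (_ : x ∈ Finset.univ) =>
    Finset.sum_le_sum fun (y : Fin n → Y) (_ : y ∈ Finset.univ) => h3 x y
  refine le_trans ?_ h7
  simp only [Finset.sum_sub_distrib, ← Finset.mul_sum]
  rw [Wn]
  linarith

end S
end Pool.Agent.H500R2.PR.TS7

namespace Pool.Agent.H500R2.PR

export TS7 (T_sum)

end Pool.Agent.H500R2.PR
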