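import Pool.Agent.H500R2.PR.Basic
import Pool.Agent.H500R2.PR.K3
import Pool.Agent.H500R2.PRF.K4
import Pool.Agent.H500R2.PR.S4
import Pool.Agent.H500R2.PR.K0
import Pool.Agent.H500R2.PR.S0
import Pool.Agent.H500R2.PR.K9
set_option autoImplicit false
open scoped InnerProductSpace
namespace Pool.Agent.H500R2.PR.TS8

section S8
variable {X Y A B : Type} [Fintype X] [Fintype Y] [Fintype A] [Fintype B]
variable {H : Type} [NormedAddCommGroup H] [InnerProductSpace ℂ H] [CompleteSpace H]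

theorem s8_norm {E : H →L[ℂ] H} (h0 : 0 ≤ E) (h1 : E ≤ 1) {δ : ℝ} (hδ : 0 ≤ δ) (hδ1 : δ ≤ 1)
    {ψ : H} (hψ : ‖ψ‖ = 1) : ‖(E + ((δ : ℝ) : ℂ) • (1 : H →L[ℂ] H)) ψ‖ ^ 2 ≤ 4 := by
  have h2 : ‖E ψ‖ ≤ 1 * ‖ψ‖ := norm_apply_le E 1 zero_le_one h0 (by
    rw [Complex.ofReal_one, one_smul]; exact h1) ψ
  have h3 : ‖(E + ((δ : ℝ) : ℂ) • (1 : H →L[ℂ] H)) ψ‖ ≤ 2 := by
    rw [ContinuousLinearMap.add_apply, ContinuousLinearMap.smul_apply,
      ContinuousLinearMap.one_apply]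
    refine (norm_add_le _ _).trans ?_
    rw [norm_smul, Complex.norm_real, Real.norm_of_nonneg hδ]
    rw [hψ] at h2 ⊢
    linarith
  have h4 := norm_nonneg ((E + ((δ : ℝ) : ℂ) • (1 : H →L[ℂ] H)) ψ)
  nlinarith

theorem s8_pw_nonneg {μ : X → Y → ℝ} (hμ : ∀ x y, 0 ≤ μ x y) {n : ℕ} (x : Fin n → X)
    (y : Fin n → Y) : 0 ≤ pw μ x y := Finset.prod_nonneg fun j _ => hμ _ _

/-- S8 (uses `tele_A`, `hA_sum`, K0, K9) -/
theorem D_sum_A [Nonempty A] (μ : X → Y → ℝ) (hμ : ∀ x y, 0 ≤ μ x y)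
    (hμ1 : ∑ x, ∑ y, μ x y = 1) {n : ℕ} (P : (Fin n → X) → (Fin n → A) → (H →L[ℂ] H))
    (hP : Povm P) (ψ : H) (hψ : ‖ψ‖ = 1) (C : Finset (Fin n)) (κx : C → X) (κa : C → A)
    (δ : ℝ) (hδ : 0 ≤ δ) (hδ1 : δ ≤ 1) :
    ∑ i ∈ Cᶜ, ∑ s : Fin n → X, ∑ t : Fin n → Y, pw μ s t *
      DX μ (fun u => (∑ a, hA μ P C κx κa δ i s t u a) ψ) ≤ 4 := by
  classical
  set f : (Fin n → X) → H := fun x =>
    (opE P C κx κa x + ((δ : ℝ) : ℂ) • (1 : H →L[ℂ] H)) ψ with hf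
  have h1 : ∀ (i : Fin n) (s : Fin n → X) (t : Fin n → Y),
      DX μ (fun u => (∑ a, hA μ P C κx κa δ i s t u a) ψ) =
        DX μ (fun u => ∑ x, ((kA μ i s t u x : ℝ) : ℂ) • f x) := by
    intro i s t
    congr 1
    funext u
    rw [hA_sum, ContinuousLinearMap.sum_apply]
    rfl
  have h2 : ∑ i ∈ Cᶜ, ∑ s : Fin n → X, ∑ t : Fin n → Y, pw μ s t *
      DX μ (fun u => (∑ a, hA μ P C κx κa δ i s t u a) ψ) ≤
      ∑ i : Fin n, ∑ s : Fin n → X, ∑ t : Fin n → Y, pw μ s t *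
        DX μ (fun u => ∑ x, ((kA μ i s t u x : ℝ) : ℂ) • f x) := by
    simp only [h1]
    refine Finset.sum_le_sum_of_subset_of_nonneg (Finset.subset_univ _) fun i _ _ => ?_
    exact Finset.sum_nonneg fun s _ => Finset.sum_nonneg fun t _ =>
      mul_nonneg (s8_pw_nonneg hμ s t) (DX_nonneg μ hμ _)
  have h3 := tele_A μ hμ hμ1 n f
  have h4 : ∑ x : Fin n → X, (∏ j, mX μ (x j)) * ‖f x‖ ^ 2 ≤
      ∑ x : Fin n → X, (∏ j, mX μ (x j)) * 4 := by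
    refine Finset.sum_le_sum fun x _ => mul_le_mul_of_nonneg_left ?_ ?_
    · exact s8_norm (opE_nonneg P hP C κx κa x) (opE_le_one P hP C κx κa x) hδ hδ1 hψ
    · exact Finset.prod_nonneg fun j _ => Finset.sum_nonneg fun y _ => hμ _ _
  have h5 : ∑ x : Fin n → X, (∏ j, mX μ (x j)) = 1 := by
    have : ∏ _j : Fin n, ∑ x, mX μ x = ∑ x : Fin n → X, ∏ j, mX μ (x j) := by
      rw [Finset.prod_univ_sum, Fintype.piFinset_univ]
    rw [← this]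
    have h6 : ∑ x, mX μ x = 1 := hμ1
    rw [h6, Finset.prod_const_one]
  rw [← Finset.sum_mul, h5, one_mul] at h4
  exact h2.trans (h3.trans h4)

/-- S8 (uses `tele_B`, `hB_sum`, K0, K9) -/
theorem D_sum_B [Nonempty B] (μ : X → Y → ℝ) (hμ : ∀ x y, 0 ≤ μ x y)
    (hμ1 : ∑ x, ∑ y, μ x y = 1) {n : ℕ} (Q : (Fin n → Y) → (Fin n → B) → (H →L[ℂ] H))
    (hQ : Povm Q) (ψ : H) (hψ : ‖ψ‖ = 1) (C : Finset (Fin n)) (κy : C → Y) (κb : C → B)
    (δ : ℝ) (hδ : 0 ≤ δ) (hδ1 : δ ≤ 1) :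
    ∑ i ∈ Cᶜ, ∑ s : Fin n → X, ∑ t : Fin n → Y, pw μ s t *
      DX (fun y x => μ x y) (fun v => (∑ b, hB μ Q C κy κb δ i s t v b) ψ) ≤ 4 := by
  classical
  set f : (Fin n → Y) → H := fun x =>
    (opE Q C κy κb x + ((δ : ℝ) : ℂ) • (1 : H →L[ℂ] H)) ψ with hf
  have h1 : ∀ (i : Fin n) (s : Fin n → X) (t : Fin n → Y),
      DX (fun y x => μ x y) (fun v => (∑ b, hB μ Q C κy κb δ i s t v b) ψ) =
        DX (fun y x => μ x y) (fun v => ∑ y, ((kB μ i s t v y : ℝ) : ℂ) • f y) := by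
    intro i s t
    congr 1
    funext u
    rw [hB_sum, ContinuousLinearMap.sum_apply]
    rfl
  have h2 : ∑ i ∈ Cᶜ, ∑ s : Fin n → X, ∑ t : Fin n → Y, pw μ s t *
      DX (fun y x => μ x y) (fun v => (∑ b, hB μ Q C κy κb δ i s t v b) ψ) ≤
      ∑ i : Fin n, ∑ s : Fin n → X, ∑ t : Fin n → Y, pw μ s t *
        DX (fun y x => μ x y) (fun v => ∑ y, ((kB μ i s t v y : ℝ) : ℂ) • f y) := by
    simp only [h1]
    refine Finset.sum_le_sum_of_subset_of_nonneg (Finset.subset_univ _) fun i _ _ => ?_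
    exact Finset.sum_nonneg fun s _ => Finset.sum_nonneg fun t _ =>
      mul_nonneg (s8_pw_nonneg hμ s t) (DX_nonneg (fun y x => μ x y) (fun y x => hμ x y) _)
  have h3 := tele_B μ hμ hμ1 n f
  have h4 : ∑ x : Fin n → Y, (∏ j, mY μ (x j)) * ‖f x‖ ^ 2 ≤
      ∑ x : Fin n → Y, (∏ j, mY μ (x j)) * 4 := by
    refine Finset.sum_le_sum fun x _ => mul_le_mul_of_nonneg_left ?_ ?_
    · exact s8_norm (opE_nonneg Q hQ C κy κb x) (opE_le_one Q hQ C κy κb x) hδ hδ1 hψ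
    · exact Finset.prod_nonneg fun j _ => Finset.sum_nonneg fun y _ => hμ _ _
  have h5 : ∑ x : Fin n → Y, (∏ j, mY μ (x j)) = 1 := by
    have : ∏ _j : Fin n, ∑ x, mY μ x = ∑ x : Fin n → Y, ∏ j, mY μ (x j) := by
      rw [Finset.prod_univ_sum, Fintype.piFinset_univ]
    rw [← this]
    have h6 : ∑ y, mY μ y = 1 := by
      unfold mY
      rw [Finset.sum_comm]
      exact hμ1
    rw [h6, Finset.prod_const_one]
  rw [← Finset.sum_mul, h5, one_mul] at h4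
  exact h2.trans (h3.trans h4)

end S8

end Pool.Agent.H500R2.PR.TS8

namespace Pool.Agent.H500R2.PR

export TS8 (D_sum_A D_sum_B)

end Pool.Agent.H500R2.PR
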