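import Pool.Agent.H500R2.PR.Basic
import Pool.Agent.H500R2.PRF.H5
import Pool.Agent.H500R2.PR.G1
import Pool.Agent.H500R2.PRF.S6
import Pool.Agent.H500R2.PRF.S7
import Pool.Agent.H500R2.PRF.S8
import Pool.Agent.H500R2.PR.S3
import Pool.Agent.H500R2.PRF.S5
import Pool.Agent.H500R2.PR.K0
import Pool.Agent.H500R2.PR.K9
set_option autoImplicit false
set_option maxHeartbeats 1000000
open scoped InnerProductSpace
namespace Pool.Agent.H500R2.PR.TM1

theorem M1_abs {ι K : Type} [Fintype K] (S : Finset ι) (I : K → Prop) [DecidablePred I]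
    (T L Da Db : ι → K → ℝ) (lam c1 θ : ℝ) (hc1 : 0 ≤ c1) (hθ : 0 ≤ θ)
    (h1 : ∀ i ∈ S, ∀ κ, I κ → lam * T i κ ≤ L i κ + c1 * (Da i κ + Db i κ) + θ)
    (hA : ∀ κ, ∑ i ∈ S, Da i κ ≤ 4) (hB : ∀ κ, ∑ i ∈ S, Db i κ ≤ 4) :
    lam * ∑ i ∈ S, ∑ κ, (if I κ then T i κ else 0) ≤
      ∑ i ∈ S, ∑ κ, (if I κ then L i κ else 0) + c1 * (8 * Fintype.card K)
        + θ * (S.card * Fintype.card K) := by
  have e1 : ∀ i ∈ S, lam * ∑ κ, (if I κ then T i κ else 0) ≤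
      ∑ κ, (if I κ then L i κ else 0) + c1 * ∑ κ, (if I κ then Da i κ + Db i κ else 0)
        + θ * Fintype.card K := by
    intro i hi
    have e2 : θ * (Fintype.card K : ℝ) = ∑ _κ : K, θ := by
      simp [mul_comm]
    rw [e2, Finset.mul_sum, Finset.mul_sum, ← Finset.sum_add_distrib, ← Finset.sum_add_distrib]
    apply Finset.sum_le_sum
    intro κ _
    by_cases h : I κ
    · simp only [h, if_true]; exact h1 i hi κ h
    · simp only [h, if_false, mul_zero, add_zero, zero_add]; exact hθ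
  have e3 : ∑ i ∈ S, ∑ κ, (if I κ then Da i κ + Db i κ else 0) ≤ 8 * Fintype.card K := by
    rw [Finset.sum_comm]
    have e4 : ∀ κ : K, ∑ i ∈ S, (if I κ then Da i κ + Db i κ else 0) ≤ 8 := by
      intro κ
      by_cases h : I κ
      · simp only [h, if_true, Finset.sum_add_distrib]
        linarith [hA κ, hB κ]
      · simp [h]
    calc ∑ κ, ∑ i ∈ S, (if I κ then Da i κ + Db i κ else 0) ≤ ∑ _κ : K, (8 : ℝ) :=
          Finset.sum_le_sum fun κ _ => e4 κ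
      _ = 8 * Fintype.card K := by simp [mul_comm]
  calc lam * ∑ i ∈ S, ∑ κ, (if I κ then T i κ else 0)
      = ∑ i ∈ S, lam * ∑ κ, (if I κ then T i κ else 0) := by rw [Finset.mul_sum]
    _ ≤ ∑ i ∈ S, (∑ κ, (if I κ then L i κ else 0) + c1 * ∑ κ, (if I κ then Da i κ + Db i κ else 0)
        + θ * Fintype.card K) := Finset.sum_le_sum e1
    _ = ∑ i ∈ S, ∑ κ, (if I κ then L i κ else 0) +
        c1 * ∑ i ∈ S, ∑ κ, (if I κ then Da i κ + Db i κ else 0) + θ * (S.card * Fintype.card K) := by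
      rw [Finset.sum_add_distrib, Finset.sum_add_distrib, Finset.mul_sum]
      simp
      ring
    _ ≤ _ := by
      have := mul_le_mul_of_nonneg_left e3 hc1
      linarith

theorem M1_pw_nonneg {X Y : Type} (μ : X → Y → ℝ) (hμ : ∀ x y, 0 ≤ μ x y)
    {n : ℕ} (x : Fin n → X) (y : Fin n → Y) : 0 ≤ pw μ x y :=
  Finset.prod_nonneg fun _ _ => hμ _ _

/-- averaging one inequality over `s, t` -/
theorem M1_avg {S T : Type} [Fintype S] [Fintype T] (w : S → T → ℝ) (hw : ∀ s t, 0 ≤ w s t)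
    (hw1 : ∑ s, ∑ t, w s t = 1) (lam c1 θ : ℝ) (F L Da Db : S → T → ℝ)
    (h : ∀ s t, w s t ≠ 0 → lam * F s t ≤ L s t + c1 * (Da s t + Db s t) + θ) :
    lam * ∑ s, ∑ t, w s t * F s t ≤ ∑ s, ∑ t, w s t * L s t +
      c1 * (∑ s, ∑ t, w s t * Da s t + ∑ s, ∑ t, w s t * Db s t) + θ := by
  have e1 : ∀ s t, lam * (w s t * F s t) ≤
      w s t * L s t + c1 * (w s t * Da s t + w s t * Db s t) + θ * w s t := by
    intro s t
    by_cases h0 : w s t = 0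
    · simp [h0]
    · have := mul_le_mul_of_nonneg_left (h s t h0) (hw s t)
      nlinarith [this]
  have e2 : lam * ∑ s, ∑ t, w s t * F s t = ∑ s, ∑ t, lam * (w s t * F s t) := by
    simp only [Finset.mul_sum]
  have e3 : ∑ s, ∑ t, w s t * L s t +
      c1 * (∑ s, ∑ t, w s t * Da s t + ∑ s, ∑ t, w s t * Db s t) + θ =
      ∑ s, ∑ t, (w s t * L s t + c1 * (w s t * Da s t + w s t * Db s t) + θ * w s t) := by
    simp only [Finset.sum_add_distrib, ← Finset.mul_sum, hw1, mul_one]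
  rw [e2, e3]
  exact Finset.sum_le_sum fun s _ => Finset.sum_le_sum fun t _ => e1 s t

theorem M1_card {X Y A B : Type} [Fintype X] [Fintype Y] [Fintype A] [Fintype B] {n : ℕ}
    (C : Finset (Fin n)) : Fintype.card ((C → X) × (C → Y) × (C → A) × (C → B)) =
      (Fintype.card X * Fintype.card Y * Fintype.card A * Fintype.card B) ^ C.card := by
  simp [Fintype.card_prod, mul_pow, mul_assoc]


theorem M1_amgm (Λ lam n : ℝ) (hΛ : 0 < Λ) (hn : 0 ≤ n) :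
    lam * Real.sqrt n ≤ Λ / 8 * n + 2 * lam ^ 2 / Λ := by
  have h13 : (Real.sqrt n) ^ 2 = n := Real.sq_sqrt hn
  have h14 : 0 ≤ (Λ * Real.sqrt n - 4 * lam) ^ 2 := sq_nonneg _
  have h15 : lam * Real.sqrt n * (8 * Λ) ≤ Λ ^ 2 * n + 16 * lam ^ 2 := by
    have h17 : (Λ * Real.sqrt n - 4 * lam) ^ 2 =
      Λ ^ 2 * (Real.sqrt n) ^ 2 + 16 * lam ^ 2 - lam * Real.sqrt n * (8 * Λ) := by ring
    rw [h17, h13] at h14
    linarith
  have h16 : Λ / 8 * n + 2 * lam ^ 2 / Λ = (Λ ^ 2 * n + 16 * lam ^ 2) / (8 * Λ) := by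
    field_simp
    ring
  rw [h16, le_div_iff₀ (by positivity)]
  exact h15

theorem M1_final (Λ lam n M R K1 q ε sq : ℝ) (hΛ : Λ = lam * q * ε)
    (h11 : lam * (q * (n - M) * ε - sq) ≤ n * (Λ / 4) + K1 + n * (Λ / 8))
    (h12 : lam * sq ≤ Λ / 8 * n + 2 * lam ^ 2 / Λ) (hR : R = Λ * M + 2 * lam ^ 2 / Λ + K1)
    (hn3 : R < Λ / 2 * n) : False := by
  have h17 : lam * (q * (n - M) * ε - sq) = Λ * n - Λ * M - lam * sq := by
    rw [hΛ]; ring
  rw [h17] at h11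
  linarith

open Classical in
/-- M1: the main theorem for a game with a distinguished part `SX × SY`
(uses `scl2`, `L_sum`, `T_sum`, `D_sum_A`, `D_sum_B`, `greedy`, S3, S5, K0) -/
theorem mainT {X Y A B : Type} [Fintype X] [Fintype Y] [Fintype A] [Fintype B]
    [Nonempty A] [Nonempty B]
    (μ : X → Y → ℝ) (hμ : ∀ x y, 0 ≤ μ x y) (hμ1 : ∑ x, ∑ y, μ x y = 1)
    (V : X → Y → A → B → Bool) (SX : Finset X) (SY : Finset Y)
    (hq : 0 < ∑ u, ∑ v, μ u v * (if u ∈ SX ∧ v ∈ SY then 1 else 0))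
    (x0 : X) (y0 : Y) (κ : ℝ) (hκ : 0 ≤ κ)
    (hκX : ∀ (H : Type) [NormedAddCommGroup H] [InnerProductSpace ℂ H] (h : X → H),
      ∀ x ∈ SX, ‖h x - h x0‖ ^ 2 ≤ κ * DX μ h)
    (hκY : ∀ (H : Type) [NormedAddCommGroup H] [InnerProductSpace ℂ H] (h : Y → H),
      ∀ y ∈ SY, ‖h y - h y0‖ ^ 2 ≤ κ * DX (fun y x => μ x y) h)
    (lam : ℝ) (hlam : 0 < lam)
    (hyp : ∀ (H : Type) [NormedAddCommGroup H] [InnerProductSpace ℂ H] [CompleteSpace H]
      (P : X → A → (H →L[ℂ] H)) (Q : Y → B → (H →L[ℂ] H)) (ψ : H), Pvm P → Pvm Q →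
      (∀ x a y b, Commute (P x a) (Q y b)) → ‖ψ‖ = 1 →
      lam ≤ lose (fun x y => if x ∈ SX ∧ y ∈ SY then μ x y else 0) V P Q ψ)
    (ε : ℝ) (hε : 0 < ε) :
    ∃ N : ℕ, ∀ n : ℕ, N ≤ n →
      ∀ (H : Type) [NormedAddCommGroup H] [InnerProductSpace ℂ H] [CompleteSpace H]
      (P : (Fin n → X) → (Fin n → A) → (H →L[ℂ] H))
      (Q : (Fin n → Y) → (Fin n → B) → (H →L[ℂ] H)) (ψ : H), Povm P → Povm Q →
      (∀ x a y b, Commute (P x a) (Q y b)) → ‖ψ‖ = 1 →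
      Wn μ V P Q ψ Finset.univ ≤ ε := by
  set q : ℝ := ∑ u, ∑ v, μ u v * (if u ∈ SX ∧ v ∈ SY then 1 else 0) with hqdef
  set b : ℕ := Fintype.card X * Fintype.card Y * Fintype.card A * Fintype.card B with hbdef
  have hb1 : 1 ≤ b := by
    have _i1 : Nonempty X := ⟨x0⟩
    have _i2 : Nonempty Y := ⟨y0⟩
    have h1 : 0 < Fintype.card X := Fintype.card_pos
    have h2 : 0 < Fintype.card Y := Fintype.card_pos
    have h3 : 0 < Fintype.card A := Fintype.card_pos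
    have h4 : 0 < Fintype.card B := Fintype.card_pos
 
    rw [hbdef]
    exact Nat.succ_le_of_lt (by positivity)
  have hb1' : (1 : ℝ) ≤ (b : ℝ) := by exact_mod_cast hb1
  set Λ : ℝ := lam * q * ε with hΛdef
  have hΛ : 0 < Λ := by positivity
  set M : ℕ := ⌈8 / Λ⌉₊ + 1 with hMdef
  have hM0 : 0 < M := by rw [hMdef]; omega
  have hM1 : 1 / (M : ℝ) ≤ Λ / 8 := by
    have h1 : 8 / Λ ≤ (M : ℝ) := by
      rw [hMdef]; push_cast
      have := Nat.le_ceil (8 / Λ)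
      linarith
    have hMr : (0 : ℝ) < M := by exact_mod_cast hM0
    rw [div_le_iff₀ hMr]
    rw [div_le_iff₀ hΛ] at h1
    linarith
  set KM : ℝ := (b : ℝ) ^ M with hKMdef
  have hKM : 0 < KM := by positivity
  set δ : ℝ := min 1 (Λ / (24 * KM)) with hδdef
  have hδ : 0 < δ := lt_min one_pos (by positivity)
  have hδ1 : δ ≤ 1 := min_le_left _ _
  have hδ2 : 3 * δ * KM ≤ Λ / 8 := by
    have : δ ≤ Λ / (24 * KM) := min_le_right _ _
    have h2 : δ * (24 * KM) ≤ Λ := by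
      rw [← le_div_iff₀ (by positivity)]; exact this
    linarith
  set θ : ℝ := Λ / (8 * KM) with hθdef
  have hθ : 0 < θ := by positivity
  have hθ2 : θ * KM = Λ / 8 := by rw [hθdef]; field_simp
  obtain ⟨c1, hc1, hscl⟩ := scl2 μ hμ hμ1 V SX SY x0 y0 κ hκ hκX hκY lam hlam hyp δ θ hδ hδ1 hθ
  set R : ℝ := Λ * M + 2 * lam ^ 2 / Λ + 8 * c1 * KM with hRdef
  refine ⟨⌈2 / Λ * R⌉₊ + 1 + M, fun n hn H _ _ _ P Q ψ hP hQ hc hψ => ?_⟩
  by_contra hcon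
  rw [not_le] at hcon
  -- the size of `n`
  have hn1 : (M : ℝ) ≤ n := by exact_mod_cast (by omega : M ≤ n)
  have hn2 : 2 / Λ * R < n := by
    have h1 := Nat.le_ceil (2 / Λ * R)
    have h2 : ((⌈2 / Λ * R⌉₊ : ℕ) : ℝ) + 1 ≤ n := by exact_mod_cast (by omega : ⌈2 / Λ * R⌉₊ + 1 ≤ n)
    linarith
  have hn3 : R < Λ / 2 * n := by
    have h1 : 2 / Λ * R * (Λ / 2) < n * (Λ / 2) := mul_lt_mul_of_pos_right hn2 (by positivity)
    have h2 : 2 / Λ * R * (Λ / 2) = R := by field_simp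
    linarith
  -- the function W
  set W : Finset (Fin n) → ℝ := fun C => Wn μ V P Q ψ C with hWdef
  have hW0 : ∀ C, 0 ≤ W C := fun C => Finset.sum_nonneg fun x _ => Finset.sum_nonneg fun y _ =>
    mul_nonneg (M1_pw_nonneg μ hμ x y) (wn_nonneg V P Q hP hQ hc ψ C x y)
  have hWe : W ∅ ≤ 1 := by
    rw [← pw_sum μ n hμ1]
    refine Finset.sum_le_sum fun x _ => Finset.sum_le_sum fun y _ => ?_
    have := mul_le_mul_of_nonneg_left (wn_le_one V P Q hP hQ hc ψ hψ ∅ x y) (M1_pw_nonneg μ hμ x y)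
    simpa using this
  have hWu : ∀ C, W Finset.univ ≤ W C := fun C => Finset.sum_le_sum fun x _ =>
    Finset.sum_le_sum fun y _ => mul_le_mul_of_nonneg_left
      (wn_anti V P Q hP hQ hc ψ C Finset.univ (Finset.subset_univ C) x y) (M1_pw_nonneg μ hμ x y)
  obtain ⟨C, hC1, hC2⟩ := greedy n W hWe hW0 M hM0
  have hWC : ε < W C := lt_of_lt_of_le hcon (hWu C)
  have hCM : (C.card : ℝ) ≤ M := by exact_mod_cast hC1
  have hbC : (b : ℝ) ^ C.card ≤ KM := pow_le_pow_right₀ hb1' hC1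
  -- the pieces
  have hT := T_sum μ hμ hμ1 V SX SY P Q hP hQ hc ψ hψ C δ hδ.le
  have hL : ∀ i, _ := fun i => L_sum μ hμ hμ1 V SX SY P Q hP hQ hc ψ hψ C i δ hδ.le hδ1
  have hmain := M1_abs (K := (C → X) × (C → Y) × (C → A) × (C → B)) Cᶜ
    (fun κ => ∀ j : C, V (κ.1 j) (κ.2.1 j) (κ.2.2.1 j) (κ.2.2.2 j) = true)
    (fun i κ => ∑ s : Fin n → X, ∑ t : Fin n → Y, pw μ s t *
          ∑ u, ∑ v, μ u v * ((if u ∈ SX ∧ v ∈ SY then 1 else 0) *
          ev ψ ((∑ a, hA μ P C κ.1 κ.2.2.1 δ i s t u a) * (∑ b, hB μ Q C κ.2.1 κ.2.2.2 δ i s t v b))))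
    (fun i κ => ∑ s : Fin n → X, ∑ t : Fin n → Y, pw μ s t *
          lose (fun x y => if x ∈ SX ∧ y ∈ SY then μ x y else 0) V
            (hA μ P C κ.1 κ.2.2.1 δ i s t) (hB μ Q C κ.2.1 κ.2.2.2 δ i s t) ψ)
    (fun i κ => ∑ s : Fin n → X, ∑ t : Fin n → Y, pw μ s t *
      DX μ (fun u => (∑ a, hA μ P C κ.1 κ.2.2.1 δ i s t u a) ψ))
    (fun i κ => ∑ s : Fin n → X, ∑ t : Fin n → Y, pw μ s t *
      DX (fun y x => μ x y) (fun v => (∑ b, hB μ Q C κ.2.1 κ.2.2.2 δ i s t v b) ψ))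
    lam c1 θ hc1 hθ.le
    (fun i _ κ _ => M1_avg (fun s t => pw μ s t) (M1_pw_nonneg μ hμ) (pw_sum μ n hμ1) lam c1 θ
      _ _ _ _ (fun s t hst => by
        have hAp := hA_props μ hμ P hP C κ.1 κ.2.2.1 δ hδ.le hδ1 i s t
        have hBp := hB_props μ hμ Q hQ C κ.2.1 κ.2.2.2 δ hδ.le hδ1 i s t
        exact hscl H _ _ ψ hψ hAp.1 hBp.1
          (fun u a v b => hAB_commute μ P Q hc C κ.1 κ.2.2.1 κ.2.1 κ.2.2.2 δ i s t u a v b)
          (fun u => (hAp.2 hst u).1) (fun u => (hAp.2 hst u).2)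
          (fun v => (hBp.2 hst v).1) (fun v => (hBp.2 hst v).2)))
    (fun κ => D_sum_A μ hμ hμ1 P hP ψ hψ C κ.1 κ.2.2.1 δ hδ.le hδ1)
    (fun κ => D_sum_B μ hμ hμ1 Q hQ ψ hψ C κ.2.1 κ.2.2.2 δ hδ.le hδ1)
  have hcardK : ((Fintype.card ((C → X) × (C → Y) × (C → A) × (C → B)) : ℕ) : ℝ) = (b : ℝ) ^ C.card := by
    rw [M1_card C, Nat.cast_pow]
  have hcc : ((Cᶜ.card : ℕ) : ℝ) ≤ n := by
    have h1 := Finset.card_le_univ Cᶜ
    rw [Fintype.card_fin] at h1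
    exact_mod_cast h1
  have hcc0 : (0 : ℝ) ≤ ((Cᶜ.card : ℕ) : ℝ) := Nat.cast_nonneg _
  -- the losing sum
  have hLS : ∑ i ∈ Cᶜ, (∑ κ : (C → X) × (C → Y) × (C → A) × (C → B),
      if (∀ j : C, V (κ.1 j) (κ.2.1 j) (κ.2.2.1 j) (κ.2.2.2 j) = true) then
        ∑ s : Fin n → X, ∑ t : Fin n → Y, pw μ s t *
          lose (fun x y => if x ∈ SX ∧ y ∈ SY then μ x y else 0) V
            (hA μ P C κ.1 κ.2.2.1 δ i s t) (hB μ Q C κ.2.1 κ.2.2.2 δ i s t) ψ else 0) ≤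
      n * (Λ / 4) := by
    have h1 : ∀ i ∈ Cᶜ, (∑ κ : (C → X) × (C → Y) × (C → A) × (C → B),
      if (∀ j : C, V (κ.1 j) (κ.2.1 j) (κ.2.2.1 j) (κ.2.2.2 j) = true) then
        ∑ s : Fin n → X, ∑ t : Fin n → Y, pw μ s t *
          lose (fun x y => if x ∈ SX ∧ y ∈ SY then μ x y else 0) V
            (hA μ P C κ.1 κ.2.2.1 δ i s t) (hB μ Q C κ.2.1 κ.2.2.2 δ i s t) ψ else 0) ≤ Λ / 4 := by
      intro i hi
      refine (hL i).trans ?_
      have h2 : W C - W (insert i C) ≤ 1 / M := hC2 i (by simpa using hi)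
      have h3 : 3 * δ * (b : ℝ) ^ C.card ≤ Λ / 8 := by
        refine le_trans ?_ hδ2
        exact mul_le_mul_of_nonneg_left hbC (by positivity)
      have h4 : W C - W (insert i C) + 3 * δ * (b : ℝ) ^ C.card ≤ Λ / 4 := by linarith
      exact h4
    calc _ ≤ ∑ _i ∈ Cᶜ, Λ / 4 := Finset.sum_le_sum h1
      _ = (Cᶜ.card : ℝ) * (Λ / 4) := by rw [Finset.sum_const, nsmul_eq_mul]
      _ ≤ n * (Λ / 4) := mul_le_mul_of_nonneg_right hcc (by positivity)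
  rw [hcardK] at hmain
  have h5 : c1 * (8 * (b : ℝ) ^ C.card) ≤ 8 * c1 * KM := by
    have := mul_le_mul_of_nonneg_left hbC hc1
    linarith
  have h6 : θ * ((Cᶜ.card : ℝ) * (b : ℝ) ^ C.card) ≤ n * (Λ / 8) := by
    rw [← hθ2]
    have h7 : (Cᶜ.card : ℝ) * (b : ℝ) ^ C.card ≤ n * KM :=
      mul_le_mul hcc hbC (by positivity) (by positivity)
    have := mul_le_mul_of_nonneg_left h7 hθ.le
    linarith
  have h8 : q * ((n : ℝ) - M) * ε ≤ q * ((n : ℝ) - C.card) * W C := by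
    have h9 : (n : ℝ) - M ≤ (n : ℝ) - C.card := by linarith
    have h10 : 0 ≤ (n : ℝ) - M := by linarith
    exact mul_le_mul (mul_le_mul_of_nonneg_left h9 hq.le) hWC.le hε.le
      (mul_nonneg hq.le (by linarith))
  have h11 : lam * (q * ((n : ℝ) - M) * ε - Real.sqrt n) ≤ n * (Λ / 4) + 8 * c1 * KM + n * (Λ / 8) := by
    refine le_trans (mul_le_mul_of_nonneg_left (sub_le_sub_right h8 _) hlam.le) ?_
    refine le_trans (mul_le_mul_of_nonneg_left hT hlam.le) ?_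
    refine le_trans hmain ?_
    linarith
  have h12 : lam * Real.sqrt n ≤ Λ / 8 * n + 2 * lam ^ 2 / Λ := M1_amgm Λ lam n hΛ (Nat.cast_nonneg n)
  exact M1_final Λ lam n M R (8 * c1 * KM) q ε (Real.sqrt n) hΛdef h11 h12 hRdef hn3

end Pool.Agent.H500R2.PR.TM1

namespace Pool.Agent.H500R2.PR

export TM1 (mainT)

end Pool.Agent.H500R2.PR
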