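import Pool.Agent.H500R2.PR.Basic
import Pool.Agent.H500R2.PRF.K6
import Pool.Agent.H500R2.PRF.K7
import Pool.Agent.H500R2.PRF.M1
import Pool.Agent.H500R2.PR.K0
set_option autoImplicit false
open scoped InnerProductSpace
namespace Pool.Agent.H500R2.PR.TM2

open Classical in
/-- M2: the connected component of `x0` (uses `poinc_X`, `poinc_Y`, `mainT`) -/
theorem mainT2 {X Y A B : Type} [Fintype X] [Fintype Y] [Fintype A] [Fintype B]
    [Nonempty A] [Nonempty B]
    (μ : X → Y → ℝ) (hμ : ∀ x y, 0 ≤ μ x y) (hμ1 : ∑ x, ∑ y, μ x y = 1)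
    (V : X → Y → A → B → Bool) (x0 : X)
    (lam : ℝ) (hlam : 0 < lam)
    (hyp : ∀ (H : Type) [NormedAddCommGroup H] [InnerProductSpace ℂ H] [CompleteSpace H]
      (P : X → A → (H →L[ℂ] H)) (Q : Y → B → (H →L[ℂ] H)) (ψ : H), Pvm P → Pvm Q →
      (∀ x a y b, Commute (P x a) (Q y b)) → ‖ψ‖ = 1 →
      lam ≤ lose (fun x y => if Relation.EqvGen (RX μ) x0 x then μ x y else 0) V P Q ψ)
    (ε : ℝ) (hε : 0 < ε) :
    ∃ N : ℕ, ∀ n : ℕ, N ≤ n →
      ∀ (H : Type) [NormedAddCommGroup H] [InnerProductSpace ℂ H] [CompleteSpace H]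
      (P : (Fin n → X) → (Fin n → A) → (H →L[ℂ] H))
      (Q : (Fin n → Y) → (Fin n → B) → (H →L[ℂ] H)) (ψ : H), Povm P → Povm Q →
      (∀ x a y b, Commute (P x a) (Q y b)) → ‖ψ‖ = 1 →
      Wn μ V P Q ψ Finset.univ ≤ ε := by
  set SX : Finset X := Finset.univ.filter (fun x => Relation.EqvGen (RX μ) x0 x) with hSX
  set SY : Finset Y := Finset.univ.filter
    (fun y => ∃ x, Relation.EqvGen (RX μ) x0 x ∧ 0 < μ x y) with hSY
  have hmX : ∀ x, x ∈ SX ↔ Relation.EqvGen (RX μ) x0 x := by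
    intro x; simp [hSX]
  have hmY : ∀ y, y ∈ SY ↔ ∃ x, Relation.EqvGen (RX μ) x0 x ∧ 0 < μ x y := by
    intro y; simp [hSY]
  have hw : (fun x y => if x ∈ SX ∧ y ∈ SY then μ x y else 0) =
      (fun x y => if Relation.EqvGen (RX μ) x0 x then μ x y else 0) := by
    funext x y
    by_cases h0 : μ x y = 0
    · simp [h0]
    · have hpos : 0 < μ x y := lt_of_le_of_ne (hμ x y) (Ne.symm h0)
      by_cases hx : Relation.EqvGen (RX μ) x0 x
      · rw [if_pos hx, if_pos ⟨(hmX x).2 hx, (hmY y).2 ⟨x, hx, hpos⟩⟩]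
      · rw [if_neg hx, if_neg (fun h => hx ((hmX x).1 h.1))]
  -- an edge in the component of `x0`
  have hedge : ∃ x1 y0, Relation.EqvGen (RX μ) x0 x1 ∧ 0 < μ x1 y0 := by
    by_contra hcon
    push Not at hcon
    have hz : (fun x y => if Relation.EqvGen (RX μ) x0 x then μ x y else 0) =
        (fun (_ : X) (_ : Y) => (0 : ℝ)) := by
      funext x y
      by_cases hx : Relation.EqvGen (RX μ) x0 x
      · rw [if_pos hx]
        exact le_antisymm (hcon x y hx) (hμ x y)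
      · rw [if_neg hx]
    obtain ⟨a0⟩ := ‹Nonempty A›
    obtain ⟨b0⟩ := ‹Nonempty B›
    have h := hyp ℂ (fun _ a => if a = a0 then 1 else 0) (fun _ b => if b = b0 then 1 else 0)
      (1 : ℂ) ?_ ?_ ?_ ?_
    · rw [hz] at h
      have : lose (fun (_ : X) (_ : Y) => (0 : ℝ)) V
          (fun _ a => if a = a0 then (1 : ℂ →L[ℂ] ℂ) else 0)
          (fun _ b => if b = b0 then (1 : ℂ →L[ℂ] ℂ) else 0) (1 : ℂ) = 0 := by
        unfold lose
        simp
      linarith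
    · refine ⟨?_, ?_⟩
      · intro x a
        dsimp only
        split_ifs
        · exact ⟨IsIdempotentElem.one, IsSelfAdjoint.one _⟩
        · exact ⟨IsIdempotentElem.zero, IsSelfAdjoint.zero _⟩
      · intro x
        simp
    · refine ⟨?_, ?_⟩
      · intro x a
        dsimp only
        split_ifs
        · exact ⟨IsIdempotentElem.one, IsSelfAdjoint.one _⟩
        · exact ⟨IsIdempotentElem.zero, IsSelfAdjoint.zero _⟩
      · intro x
        simp
    · intro x a y b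
      try dsimp only
      split_ifs
      · exact Commute.one_left _
      · exact Commute.zero_right _
      · exact Commute.zero_left _
      · exact Commute.zero_left _
    · simp
  obtain ⟨x1, y0, hx1, h0⟩ := hedge
  have hq : 0 < ∑ u, ∑ v, μ u v * (if u ∈ SX ∧ v ∈ SY then (1 : ℝ) else 0) := by
    have hnn : ∀ u v, 0 ≤ μ u v * (if u ∈ SX ∧ v ∈ SY then (1 : ℝ) else 0) := by
      intro u v
      apply mul_nonneg (hμ u v)
      split_ifs
      · exact zero_le_one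
      · exact le_rfl
    have h1 : μ x1 y0 * (if x1 ∈ SX ∧ y0 ∈ SY then (1 : ℝ) else 0) ≤
        ∑ v, μ x1 v * (if x1 ∈ SX ∧ v ∈ SY then (1 : ℝ) else 0) :=
      Finset.single_le_sum (f := fun v => μ x1 v * (if x1 ∈ SX ∧ v ∈ SY then (1 : ℝ) else 0))
        (fun v _ => hnn x1 v) (Finset.mem_univ y0)
    have h2 : ∑ v, μ x1 v * (if x1 ∈ SX ∧ v ∈ SY then (1 : ℝ) else 0) ≤
        ∑ u, ∑ v, μ u v * (if u ∈ SX ∧ v ∈ SY then (1 : ℝ) else 0) :=
      Finset.single_le_sum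
        (f := fun u => ∑ v, μ u v * (if u ∈ SX ∧ v ∈ SY then (1 : ℝ) else 0))
        (fun u _ => Finset.sum_nonneg (fun v _ => hnn u v)) (Finset.mem_univ x1)
    rw [if_pos ⟨(hmX x1).2 hx1, (hmY y0).2 ⟨x1, hx1, h0⟩⟩, mul_one] at h1
    linarith
  obtain ⟨κX, hκX0, hκX⟩ := poinc_X μ hμ x0
  obtain ⟨κY, hκY0, hκY⟩ := poinc_Y μ hμ x1 y0 h0
  refine mainT μ hμ hμ1 V SX SY hq x0 y0 (κX + κY) (add_nonneg hκX0 hκY0) ?_ ?_ lam hlam ?_ ε hε
  · intro H _ _ h x hx
    have h1 := hκX H h x ((hmX x).1 hx)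
    have h2 : 0 ≤ κY * DX μ h := mul_nonneg hκY0 (DX_nonneg μ hμ h)
    rw [add_mul]
    linarith
  · intro H _ _ h y hy
    obtain ⟨x, hx, hxy⟩ := (hmY y).1 hy
    have h1 := hκY H h y ⟨x, (hx1.symm).trans _ _ _ hx, hxy⟩
    have h2 : 0 ≤ κX * DX (fun y x => μ x y) h :=
      mul_nonneg hκX0 (DX_nonneg (fun y x => μ x y) (fun y x => hμ x y) h)
    rw [add_mul]
    linarith
  · rw [hw]
    exact hyp

end Pool.Agent.H500R2.PR.TM2

namespace Pool.Agent.H500R2.PR

export TM2 (mainT2)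

end Pool.Agent.H500R2.PR
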