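import Pool.Agent.H500R2.PR.Basic
import Pool.Agent.H500R2.PRF.M2
import Pool.Agent.H500R2.PRF.H7
set_option autoImplicit false
open scoped InnerProductSpace
namespace Pool.Agent.H500R2.PR.TM3

theorem m3_zero {H : Type} [NormedAddCommGroup H] [InnerProductSpace ℂ H] {X A : Type}
    [Fintype A] [IsEmpty A] (P : X → A → (H →L[ℂ] H)) (x : X) (h : ∑ a, P x a = 1) (ψ : H) :
    ‖ψ‖ ≠ 1 := by
  rw [Finset.univ_eq_empty, Finset.sum_empty] at h
  have : ψ = 0 := by
    have h2 : (1 : H →L[ℂ] H) ψ = (0 : H →L[ℂ] H) ψ := by rw [← h]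
    simpa using h2
  rw [this, norm_zero]
  exact zero_ne_one

open Classical in
/-- M3: parallel repetition for the commuting-operator value, in the notation of this file
(uses `mainT2`, `combine`) -/
theorem par_rep {X Y A B : Type} [Fintype X] [Fintype Y] [Fintype A] [Fintype B]
    (μ : X → Y → ℝ) (hμ : ∀ x y, 0 ≤ μ x y) (hμ1 : ∑ x, ∑ y, μ x y = 1)
    (V : X → Y → A → B → Bool) (lam : ℝ) (hlam : 0 < lam)
    (hyp : ∀ (H : Type) [NormedAddCommGroup H] [InnerProductSpace ℂ H] [CompleteSpace H]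
      (P : X → A → (H →L[ℂ] H)) (Q : Y → B → (H →L[ℂ] H)) (ψ : H), Pvm P → Pvm Q →
      (∀ x a y b, Commute (P x a) (Q y b)) → ‖ψ‖ = 1 → lam ≤ lose μ V P Q ψ)
    (ε : ℝ) (hε : 0 < ε) :
    ∃ N : ℕ, ∀ n : ℕ, N ≤ n →
      ∀ (H : Type) [NormedAddCommGroup H] [InnerProductSpace ℂ H] [CompleteSpace H]
      (P : (Fin n → X) → (Fin n → A) → (H →L[ℂ] H))
      (Q : (Fin n → Y) → (Fin n → B) → (H →L[ℂ] H)) (ψ : H), Pvm P → Pvm Q →
      (∀ x a y b, Commute (P x a) (Q y b)) → ‖ψ‖ = 1 →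
      Wn μ V P Q ψ Finset.univ ≤ ε := by
  have hX : Nonempty X := by
    by_contra h
    rw [not_nonempty_iff] at h
    rw [Finset.univ_eq_empty, Finset.sum_empty] at hμ1
    exact zero_ne_one hμ1
  have hY : Nonempty Y := by
    by_contra h
    rw [not_nonempty_iff] at h
    simp only [Finset.univ_eq_empty, Finset.sum_empty, Finset.sum_const_zero] at hμ1
    exact zero_ne_one hμ1
  obtain ⟨xd⟩ := hX
  obtain ⟨yd⟩ := hY
  rcases isEmpty_or_nonempty A with hA | hA
  · refine ⟨1, fun n hn H _ _ _ P Q ψ hP hQ _ hψ => ?_⟩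
    have : Nonempty (Fin n) := ⟨⟨0, hn⟩⟩
    have : IsEmpty (Fin n → A) := inferInstance
    exact absurd hψ (m3_zero P (fun _ => xd) (hP.2 _) ψ)
  rcases isEmpty_or_nonempty B with hB | hB
  · refine ⟨1, fun n hn H _ _ _ P Q ψ hP hQ _ hψ => ?_⟩
    have : Nonempty (Fin n) := ⟨⟨0, hn⟩⟩
    have : IsEmpty (Fin n → B) := inferInstance
    exact absurd hψ (m3_zero Q (fun _ => yd) (hQ.2 _) ψ)
  by_cases hx : ∃ (x0 : X) (lam' : ℝ), 0 < lam' ∧
      ∀ (H : Type) [NormedAddCommGroup H] [InnerProductSpace ℂ H] [CompleteSpace H]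
      (P : X → A → (H →L[ℂ] H)) (Q : Y → B → (H →L[ℂ] H)) (ψ : H), Pvm P → Pvm Q →
      (∀ x a y b, Commute (P x a) (Q y b)) → ‖ψ‖ = 1 →
      lam' ≤ lose (fun x y => if Relation.EqvGen (RX μ) x0 x then μ x y else 0) V P Q ψ
  · obtain ⟨x0, lam', hlam', hyp'⟩ := hx
    obtain ⟨N, hN⟩ := mainT2 μ hμ hμ1 V x0 lam' hlam' hyp' ε hε
    exact ⟨N, fun n hn H _ _ _ P Q ψ hP hQ hc hψ => hN n hn H P Q ψ hP.povm hQ.povm hc hψ⟩
  · exfalso
    let S : Setoid X := Relation.EqvGen.setoid (RX μ)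
    let J : Type := Quotient S
    have : Fintype J := Fintype.ofFinite _
    have : Nonempty J := ⟨Quotient.mk S xd⟩
    let cX : X → J := fun x => Quotient.mk S x
    let cY : Y → J := fun y => if h : ∃ x, 0 < μ x y then Quotient.mk S h.choose
      else Quotient.mk S xd
    have hcol : ∀ x y, μ x y ≠ 0 → cX x = cY y := by
      intro x y hxy
      have hpos : 0 < μ x y := lt_of_le_of_ne (hμ x y) (Ne.symm hxy)
      have h : ∃ x, 0 < μ x y := ⟨x, hpos⟩
      change Quotient.mk S x = dite _ _ _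
      rw [dif_pos h]
      exact Quotient.sound (Relation.EqvGen.rel _ _ ⟨y, hpos, h.choose_spec⟩)
    have hw : ∀ (x0 x : X) (y : Y), μ x y ≠ 0 →
        ((cX x = Quotient.mk S x0 ∧ cY y = Quotient.mk S x0) ↔
          Relation.EqvGen (RX μ) x0 x) := by
      intro x0 x y hxy
      rw [← hcol x y hxy, and_self]
      change Quotient.mk S x = Quotient.mk S x0 ↔ _
      rw [eq_comm]
      exact Quotient.eq
    obtain ⟨H, i1, i2, i3, P, Q, ψ, hP, hQ, hc, hψ, hlt⟩ :=
      combine (A := A) (B := B) μ V J cX cY hcol (by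
        intro j lam' hlam'
        obtain ⟨x0, rfl⟩ := Quotient.exists_rep j
        by_contra hcon
        apply hx
        refine ⟨x0, lam', hlam', ?_⟩
        intro H _ _ _ P Q ψ hP hQ hc hψ
        by_contra hlt
        rw [not_le] at hlt
        apply hcon
        refine ⟨H, inferInstance, inferInstance, inferInstance, P, Q, ψ, hP, hQ, hc, hψ, ?_⟩
        refine lt_of_eq_of_lt ?_ hlt
        unfold lose
        refine Finset.sum_congr rfl fun x _ => Finset.sum_congr rfl fun y _ => ?_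
        congr 1
        beta_reduce
        by_cases hxy : μ x y = 0
        · rw [hxy, ite_self, ite_self]
        · by_cases h3 : Relation.EqvGen (RX μ) x0 x
          · rw [if_pos h3, if_pos ((hw x0 x y hxy).2 h3)]
          · rw [if_neg h3, if_neg fun h => h3 ((hw x0 x y hxy).1 h)]) lam hlam
    exact absurd (hyp H P Q ψ hP hQ hc hψ) (not_le.2 hlt)

end Pool.Agent.H500R2.PR.TM3

namespace Pool.Agent.H500R2.PR

export TM3 (par_rep)

end Pool.Agent.H500R2.PR
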