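import Pool.Agent.H500R2.PR.Basic
import Pool.Agent.H500R2.PRF.M3
set_option autoImplicit false
open scoped InnerProductSpace
namespace Pool.Agent.H500R2.PR.TM4

theorem m4_total {X Y A B : Type} [Fintype A] [Fintype B]
    {H : Type} [NormedAddCommGroup H] [InnerProductSpace ℂ H] [CompleteSpace H]
    (P : X → A → (H →L[ℂ] H)) (Q : Y → B → (H →L[ℂ] H)) (hP : ∀ x, ∑ a, P x a = 1)
    (hQ : ∀ y, ∑ b, Q y b = 1)
    (ψ : H) (hψ : ‖ψ‖ = 1) (x : X) (y : Y) :
    ∑ a, ∑ b, ev ψ (P x a * Q y b) = 1 := by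
  have h1 : ∑ a, ∑ b, ev ψ (P x a * Q y b) = ev ψ ((∑ a, P x a) * (∑ b, Q y b)) := by
    rw [Finset.sum_mul_sum, ev_sum]
    refine Finset.sum_congr rfl fun a _ => ?_
    rw [ev_sum]
  rw [h1, hP x, hQ y, one_mul, ev_one, hψ, one_pow]

/-- M4: the frozen statement S10805 (uses `par_rep`) -/
theorem frozen :
    ∀ (X Y A B : Type) [Fintype X] [Fintype Y] [Fintype A] [Fintype B]
      (π : X → Y → ℝ) (V : X → Y → A → B → Bool),
      (∀ x y, 0 ≤ π x y) → (∑ x, ∑ y, π x y = 1) →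
      (∃ c : ℝ, c < 1 ∧
        ∀ (H : Type) [NormedAddCommGroup H] [InnerProductSpace ℂ H] [CompleteSpace H]
          (P : X → A → (H →L[ℂ] H)) (Q : Y → B → (H →L[ℂ] H)) (ψ : H),
          (∀ x a, IsIdempotentElem (P x a) ∧ IsSelfAdjoint (P x a)) →
          (∀ x, ∑ a, P x a = 1) →
          (∀ y b, IsIdempotentElem (Q y b) ∧ IsSelfAdjoint (Q y b)) →
          (∀ y, ∑ b, Q y b = 1) →
          (∀ x y a b, P x a * Q y b = Q y b * P x a) →
          ‖ψ‖ = 1 →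
          ∑ x, ∑ y, π x y * ∑ a, ∑ b,
            (if V x y a b = true then (⟪ψ, (P x a * Q y b) ψ⟫_ℂ).re else 0) ≤ c) →
      ∀ ε : ℝ, 0 < ε → ∃ K : ℕ, ∀ k : ℕ, K ≤ k →
        ∀ (H : Type) [NormedAddCommGroup H] [InnerProductSpace ℂ H] [CompleteSpace H]
          (P : (Fin k → X) → (Fin k → A) → (H →L[ℂ] H))
          (Q : (Fin k → Y) → (Fin k → B) → (H →L[ℂ] H)) (ψ : H),
          (∀ x a, IsIdempotentElem (P x a) ∧ IsSelfAdjoint (P x a)) →
          (∀ x, ∑ a, P x a = 1) →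
          (∀ y b, IsIdempotentElem (Q y b) ∧ IsSelfAdjoint (Q y b)) →
          (∀ y, ∑ b, Q y b = 1) →
          (∀ x y a b, P x a * Q y b = Q y b * P x a) →
          ‖ψ‖ = 1 →
          ∑ x, ∑ y, (∏ i, π (x i) (y i)) * ∑ a, ∑ b,
            (if (∀ i, V (x i) (y i) (a i) (b i) = true)
              then (⟪ψ, (P x a * Q y b) ψ⟫_ℂ).re else 0) ≤ ε := by
  intro X Y A B _ _ _ _ π V hπ hπ1 ⟨c, hc, hyp⟩ ε hε
  have key : ∀ (H : Type) [NormedAddCommGroup H] [InnerProductSpace ℂ H] [CompleteSpace H]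
      (P : X → A → (H →L[ℂ] H)) (Q : Y → B → (H →L[ℂ] H)) (ψ : H), Pvm P → Pvm Q →
      (∀ x a y b, Commute (P x a) (Q y b)) → ‖ψ‖ = 1 → 1 - c ≤ lose π V P Q ψ := by
    intro H _ _ _ P Q ψ hP hQ hcm hψ
    have h1 := hyp H P Q ψ hP.1 hP.2 hQ.1 hQ.2 (fun x y a b => hcm x a y b) hψ
    have h2 : lose π V P Q ψ + ∑ x, ∑ y, π x y * ∑ a, ∑ b,
        (if V x y a b = true then (⟪ψ, (P x a * Q y b) ψ⟫_ℂ).re else 0) = 1 := by
      unfold lose
      rw [← Finset.sum_add_distrib, ← hπ1]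
      refine Finset.sum_congr rfl fun x _ => ?_
      rw [← Finset.sum_add_distrib]
      refine Finset.sum_congr rfl fun y _ => ?_
      rw [← mul_add, ← Finset.sum_add_distrib]
      have h3 : ∑ a, (∑ b, (if V x y a b = true then 0 else ev ψ (P x a * Q y b)) +
          ∑ b, (if V x y a b = true then (⟪ψ, (P x a * Q y b) ψ⟫_ℂ).re else 0)) =
          ∑ a, ∑ b, ev ψ (P x a * Q y b) := by
        refine Finset.sum_congr rfl fun a _ => ?_
        rw [← Finset.sum_add_distrib]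
        refine Finset.sum_congr rfl fun b _ => ?_
        split_ifs
        · rw [zero_add]; rfl
        · rw [add_zero]
      rw [h3, m4_total P Q hP.2 hQ.2 ψ hψ x y, mul_one]
    linarith
  obtain ⟨N, hN⟩ := par_rep π hπ hπ1 V (1 - c) (by linarith) key ε hε
  refine ⟨N, fun k hk H _ _ _ P Q ψ hP hP1 hQ hQ1 hcm hψ => ?_⟩
  have h1 := hN k hk H P Q ψ ⟨hP, hP1⟩ ⟨hQ, hQ1⟩ (fun x a y b => hcm x y a b) hψ
  refine le_trans (le_of_eq ?_) h1
  unfold Wn wn pw
  refine Finset.sum_congr rfl fun x _ => Finset.sum_congr rfl fun y _ => ?_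
  congr 1
  refine Finset.sum_congr rfl fun a _ => Finset.sum_congr rfl fun b _ => ?_
  by_cases h : ∀ i, V (x i) (y i) (a i) (b i) = true
  · rw [if_pos h, if_pos fun i _ => h i]
    rfl
  · rw [if_neg h, if_neg fun h' => h fun i => h' i (Finset.mem_univ i)]

end Pool.Agent.H500R2.PR.TM4

namespace Pool.Agent.H500R2.PR

export TM4 (frozen)

end Pool.Agent.H500R2.PR
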